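import Mathlib

/-!
# Chromatic schemes in subgraphs

We disprove the statement that every `p`-chromatic graph has a subgraph with a chromatic
`p`-scheme.  The counterexample is the complement `G` of a triangle-free graph `H` on `n` vertices,
so that the chromatic number `p` of `G` is at least `n / 2`, and a chromatic `p`-scheme has
essentially all its colour classes of size two, `{v i, w i}`.  For such classes the scheme forbids
that both `v i, v j` and `w i, w j` are adjacent in `H`.

`H` lives on six parts of sizes `3N, N, 3N, 4N, 2N, 6N`, with `N = t ^ 15`, and is obtained from a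
random graph whose density between parts `a` and `b` is `t ^ (- kmat a b)`, by removing every pair
that has a common neighbour through two sparse kinds of edges.  A union bound shows that whenever
the exponents of two kinds sum to less than 15, all large partial matchings of these kinds
contain a forbidden configuration, and a finite check on the six parts finishes the proof.
-/

namespace Pool.Agent.Results.MP_4cad9a_co.SchemesFail

open Finset

lemma bernoulli_nat (x c q : ℕ) : x ^ (q+1) + (q+1) * c * x ^ q ≤ (x + c) ^ (q+1) := by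
  induction q with
  | zero => simp
  | succ q ih =>
    calc x ^ (q+1+1) + (q+1+1) * c * x ^ (q+1)
        ≤ (x ^ (q+1) + (q+1) * c * x ^ q) * (x + c) := by
          have : (x ^ (q+1) + (q+1) * c * x ^ q) * (x + c)
              = x ^ (q+1+1) + (q+1+1) * c * x ^ (q+1) + (q+1) * c * c * x ^ q := by ring
          rw [this]; exact Nat.le_add_right _ _
      _ ≤ (x + c) ^ (q+1) * (x + c) := Nat.mul_le_mul_right _ ih
      _ = (x + c) ^ (q+1+1) := by ring

/-- `2 (M - c)^q ≤ M^q` whenever `M ≤ c q`. -/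
lemma two_mul_sub_pow_le (M c q : ℕ) (hM : 0 < M) (hc : c ≤ M) (h : M ≤ c * q) :
    2 * (M - c) ^ q ≤ M ^ q := by
  obtain ⟨x, rfl⟩ : ∃ x, M = x + c := ⟨M - c, by omega⟩
  have hq : q ≠ 0 := by
    rintro rfl
    simp at h; omega
  obtain ⟨q, rfl⟩ := Nat.exists_eq_succ_of_ne_zero hq
  have h1 := bernoulli_nat x c q
  have h2 : x + c - c = x := by omega
  rw [h2]
  have h3 : x ^ (q+1) ≤ (q+1) * c * x ^ q := by
    have : x ≤ (q+1) * c := by
      have : x + c ≤ c * (q+1) := h
      have h5 : c * (q+1) = (q+1) * c := by ring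
      omega
    calc x ^ (q+1) = x * x ^ q := by ring
      _ ≤ (q+1) * c * x ^ q := Nat.mul_le_mul_right _ this
  have h4 : (x + c) ^ q.succ = (x+c)^(q+1) := rfl
  rw [h4]
  have : x ^ q.succ = x ^ (q+1) := rfl
  rw [this]
  omega

lemma card_lt_filter (T A : ℕ) (hA : A ≤ T) :
    (univ.filter (fun x : Fin T => x.val < A)).card = A := by
  have h := Fin.card_filter_val_lt (n := T) (m := A)
  simpa [hA] using h

lemma card_pair_filter (T A B : ℕ) (hA : A ≤ T) (hB : B ≤ T) :
    (univ.filter (fun x : Fin T × Fin T => ¬ (x.1.val < A ∧ x.2.val < B))).card = T * T - A * B := by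
  have h1 : (univ.filter (fun x : Fin T × Fin T => (x.1.val < A ∧ x.2.val < B))).card = A * B := by
    have : (univ.filter (fun x : Fin T × Fin T => (x.1.val < A ∧ x.2.val < B)))
        = (univ.filter (fun x : Fin T => x.val < A)) ×ˢ (univ.filter (fun x : Fin T => x.val < B)) := by
      ext x; simp
    rw [this, card_product, card_lt_filter T A hA, card_lt_filter T B hB]
  have h2 := Finset.card_filter_add_card_filter_not (s := (univ : Finset (Fin T × Fin T))) (fun x => (x.1.val < A ∧ x.2.val < B))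
  rw [h1] at h2
  have h3 : (univ : Finset (Fin T × Fin T)).card = T * T := by simp
  rw [h3] at h2
  omega

section CountBad

variable {X κ : Type} [Fintype X] [DecidableEq X] [DecidableEq κ]

/-- Main counting lemma: the blocks `(ω (α k), ω (β k))` are independent of each other and of the
remaining coordinates, on which the exceptional set `D` depends. -/
theorem count_bad (T : ℕ) (hT : 0 < T) (s : Finset κ) (α β : κ → X)
    (hα : ∀ k ∈ s, ∀ k' ∈ s, α k = α k' → k = k')
    (hβ : ∀ k ∈ s, ∀ k' ∈ s, β k = β k' → k = k')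
    (hαβ : ∀ k ∈ s, ∀ k' ∈ s, α k ≠ β k')
    (A B : ℕ) (hA : A ≤ T) (hB : B ≤ T)
    (D : (X → Fin T) → κ → Prop)
    (hD : ∀ ω ω' : X → Fin T, (∀ x, (∀ k ∈ s, x ≠ α k ∧ x ≠ β k) → ω x = ω' x) →
      ∀ k ∈ s, D ω k → D ω' k)
    (d L q : ℕ) (hq : T * T ≤ A * B * q) (hL : d + q * L ≤ s.card)
    (S : Finset (X → Fin T))
    (hS1 : ∀ ω ∈ S, ∀ F ⊆ s, (∀ k ∈ F, D ω k) → F.card ≤ d)
    (hS2 : ∀ ω ∈ S, ∀ k ∈ s, ¬ D ω k → ¬ ((ω (α k)).val < A ∧ (ω (β k)).val < B)) :
    S.card * 2 ^ L ≤ T ^ (Fintype.card X) := by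
  classical
  -- the set of block coordinates
  set Ac : Finset X := s.image α ∪ s.image β with hAc
  have memAc : ∀ x, x ∈ Ac ↔ ∃ k ∈ s, x = α k ∨ x = β k := by
    intro x
    simp only [hAc, mem_union, mem_image]
    constructor
    · rintro (⟨k, hk, rfl⟩ | ⟨k, hk, rfl⟩)
      · exact ⟨k, hk, Or.inl rfl⟩
      · exact ⟨k, hk, Or.inr rfl⟩
    · rintro ⟨k, hk, rfl | rfl⟩
      · exact Or.inl ⟨k, hk, rfl⟩
      · exact Or.inr ⟨k, hk, rfl⟩
  have cardAc : Ac.card = 2 * s.card := by
    have h1 : (s.image α).card = s.card := card_image_of_injOn (fun k hk k' hk' h => hα k hk k' hk' h)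
    have h2 : (s.image β).card = s.card := card_image_of_injOn (fun k hk k' hk' h => hβ k hk k' hk' h)
    have h3 : Disjoint (s.image α) (s.image β) := by
      rw [Finset.disjoint_left]
      intro x hx hx'
      obtain ⟨k, hk, rfl⟩ := mem_image.1 hx
      obtain ⟨k', hk', h⟩ := mem_image.1 hx'
      exact hαβ k hk k' hk' h.symm
    rw [hAc, card_union_of_disjoint h3, h1, h2]; ring
  have hs2 : 2 * s.card ≤ Fintype.card X := by
    rw [← cardAc]; exact card_le_univ _
  set zero : Fin T := ⟨0, hT⟩ with hzero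
  let zf : (X → Fin T) → (X → Fin T) := fun ω x => if x ∈ Ac then zero else ω x
  let gf : (X → Fin T) → (s → Fin T × Fin T) := fun ω k => (ω (α k), ω (β k))
  have hzD : ∀ ω, ∀ k ∈ s, (D ω k ↔ D (zf ω) k) := by
    intro ω k hk
    have key : ∀ x, (∀ k ∈ s, x ≠ α k ∧ x ≠ β k) → ω x = zf ω x := by
      intro x hx
      have : x ∉ Ac := by
        rw [memAc]
        rintro ⟨k, hk, h | h⟩
        · exact (hx k hk).1 h
        · exact (hx k hk).2 h
      simp [zf, this]
    exact ⟨hD ω (zf ω) key k hk, hD (zf ω) ω (fun x hx => (key x hx).symm) k hk⟩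
  -- target finset
  let Z : Finset (X → Fin T) := Fintype.piFinset (fun x => if x ∈ Ac then {zero} else univ)
  let Z' : Finset (X → Fin T) := Z.filter (fun z => (s.filter (fun k => D z k)).card ≤ d)
  let F : (X → Fin T) → Finset (s → Fin T × Fin T) := fun z =>
    Fintype.piFinset (fun k : s => if D z k then univ else
      univ.filter (fun x : Fin T × Fin T => ¬ (x.1.val < A ∧ x.2.val < B)))
  have hmaps : S.card ≤ (Z'.sigma F).card := by
    apply card_le_card_of_injOn (fun ω => (⟨zf ω, gf ω⟩ : Σ _ : (X → Fin T), (s → Fin T × Fin T)))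
    · intro ω hω
      have hω' : (s.filter (fun k => D ω k)).card ≤ d ∧
        ∀ k ∈ s, ¬ D ω k → ¬ ((ω (α k)).val < A ∧ (ω (β k)).val < B) :=
        ⟨hS1 ω hω _ (filter_subset _ _) (fun k hk => (mem_filter.1 hk).2), hS2 ω hω⟩
      simp only [Finset.mem_coe, mem_sigma]
      refine ⟨?_, ?_⟩
      · refine mem_filter.2 ⟨?_, ?_⟩
        · rw [Fintype.mem_piFinset]
          intro x
          by_cases hx : x ∈ Ac
          · simp [hx, zf]
          · simp [hx]
        · have : (s.filter (fun k => D (zf ω) k)) = (s.filter (fun k => D ω k)) := by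
            apply filter_congr
            intro k hk
            exact (hzD ω k hk).symm
          rw [this]; exact hω'.1
      · rw [Fintype.mem_piFinset]
        intro k
        by_cases hk : D (zf ω) k
        · simp [hk]
        · have hk' : ¬ D ω k := fun h => hk ((hzD ω k k.2).1 h)
          simp only [hk, if_false, mem_filter, mem_univ, true_and]
          exact hω'.2 k k.2 hk'
    · intro ω _ ω' _ h
      have h' := Sigma.mk.inj h
      have h1 : zf ω = zf ω' := h'.1
      have h2 : gf ω = gf ω' := eq_of_heq h'.2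
      funext x
      by_cases hx : x ∈ Ac
      · obtain ⟨k, hk, hh⟩ := (memAc x).1 hx
        have h3 := congrFun h2 ⟨k, hk⟩
        simp only [gf, Prod.mk.injEq] at h3
        rcases hh with rfl | rfl
        · exact h3.1
        · exact h3.2
      · have h3 := congrFun h1 x
        simpa [zf, hx] using h3
  have hZ : Z.card * T ^ (2 * s.card) = T ^ (Fintype.card X) := by
    have h1 : Z.card = ∏ x : X, (if x ∈ Ac then 1 else T) := by
      rw [Fintype.card_piFinset]
      apply prod_congr rfl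
      intro x _
      by_cases hx : x ∈ Ac <;> simp [hx]
    have h2 : (∏ x : X, (if x ∈ Ac then 1 else T)) = T ^ (Fintype.card X - 2 * s.card) := by
      rw [prod_ite]
      simp only [prod_const_one, one_mul, prod_const]
      congr 1
      have : (univ.filter (fun x : X => x ∉ Ac)).card = Fintype.card X - Ac.card := by
        have h3 := Finset.card_filter_add_card_filter_not (s := (univ : Finset X)) (fun x => x ∈ Ac)
        have h4 : (univ.filter (fun x : X => x ∈ Ac)) = Ac := by ext x; simp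
        rw [h4] at h3
        have h5 : (univ : Finset X).card = Fintype.card X := rfl
        omega
      rw [this, cardAc]
    rw [h1, h2, ← pow_add]
    congr 1; omega
  have hAB : A * B ≤ T * T := Nat.mul_le_mul hA hB
  have hF : ∀ z ∈ Z', (F z).card ≤ (T * T) ^ d * (T * T - A * B) ^ (s.card - d) := by
    intro z hz
    have hz' := (mem_filter.1 hz).2
    have h1 : (F z).card = ∏ k : s, (if D z k then T * T else T * T - A * B) := by
      show (Fintype.piFinset _).card = _
      rw [Fintype.card_piFinset]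
      apply prod_congr rfl
      intro k _
      by_cases hk : D z k
      · simp [hk]
      · simp only [hk, if_false]
        exact card_pair_filter T A B hA hB
    have h2 : (∏ k : s, (if D z k then T * T else T * T - A * B))
        = (T * T) ^ (s.filter (fun k => D z k)).card *
          (T * T - A * B) ^ (s.card - (s.filter (fun k => D z k)).card) := by
      rw [prod_coe_sort s (fun k => (if D z k then T * T else T * T - A * B)), prod_ite]
      simp only [prod_const]
      congr 2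
      have h3 := Finset.card_filter_add_card_filter_not (s := s) (fun k => D z k)
      omega
    rw [h1, h2]
    set c := (s.filter (fun k => D z k)).card with hc
    have hcs : c ≤ s.card := card_filter_le _ _
    have hds : d ≤ s.card := by
      have : d ≤ d + q * L := Nat.le_add_right _ _
      omega
    have e1 : (T * T) ^ d = (T*T)^c * (T*T)^(d - c) := by
      rw [← pow_add]; congr 1; omega
    have e2 : (T * T - A * B) ^ (s.card - c) = (T*T - A*B)^(d - c) * (T * T - A * B) ^ (s.card - d) := by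
      rw [← pow_add]; congr 1; omega
    rw [e1, e2]
    have e3 : (T*T - A*B)^(d-c) ≤ (T*T)^(d-c) := Nat.pow_le_pow_left (Nat.sub_le _ _) _
    calc (T * T) ^ c * ((T * T - A * B) ^ (d - c) * (T * T - A * B) ^ (s.card - d))
        ≤ (T * T) ^ c * ((T * T) ^ (d - c) * (T * T - A * B) ^ (s.card - d)) := by
          apply Nat.mul_le_mul_left
          exact Nat.mul_le_mul_right _ e3
      _ = _ := by ring
  have hsum : (Z'.sigma F).card ≤ Z.card * ((T * T) ^ d * (T * T - A * B) ^ (s.card - d)) := by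
    rw [card_sigma]
    calc ∑ z ∈ Z', (F z).card ≤ ∑ z ∈ Z', ((T * T) ^ d * (T * T - A * B) ^ (s.card - d)) :=
          sum_le_sum hF
      _ = Z'.card * ((T * T) ^ d * (T * T - A * B) ^ (s.card - d)) := by
          rw [sum_const, smul_eq_mul]
      _ ≤ _ := Nat.mul_le_mul_right _ (card_filter_le _ _)
  have hpow : (T * T - A * B) ^ (s.card - d) * 2 ^ L ≤ (T * T) ^ (s.card - d) := by
    obtain ⟨e, he⟩ : ∃ e, s.card - d = q * L + e := ⟨s.card - d - q * L, by omega⟩
    rw [he, pow_add, pow_add, pow_mul, pow_mul]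
    have h1 : 2 * (T * T - A * B) ^ q ≤ (T * T) ^ q :=
      two_mul_sub_pow_le (T*T) (A*B) q (Nat.mul_pos hT hT) hAB hq
    have h2 : (2 * (T * T - A * B) ^ q) ^ L ≤ ((T * T) ^ q) ^ L := Nat.pow_le_pow_left h1 L
    have h3 : (T * T - A * B) ^ e ≤ (T * T) ^ e := Nat.pow_le_pow_left (Nat.sub_le _ _) _
    calc ((T * T - A * B) ^ q) ^ L * (T * T - A * B) ^ e * 2 ^ L
        = (2 * (T * T - A * B) ^ q) ^ L * (T * T - A * B) ^ e := by rw [mul_pow]; ring
      _ ≤ ((T * T) ^ q) ^ L * (T * T) ^ e := Nat.mul_le_mul h2 h3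
  have hds : d ≤ s.card := by
    have : d ≤ d + q * L := Nat.le_add_right _ _
    omega
  calc S.card * 2 ^ L ≤ (Z.card * ((T * T) ^ d * (T * T - A * B) ^ (s.card - d))) * 2 ^ L :=
        Nat.mul_le_mul_right _ (hmaps.trans hsum)
    _ = Z.card * ((T * T) ^ d * ((T * T - A * B) ^ (s.card - d) * 2 ^ L)) := by ring
    _ ≤ Z.card * ((T * T) ^ d * (T * T) ^ (s.card - d)) := by
        apply Nat.mul_le_mul_left
        apply Nat.mul_le_mul_left
        exact hpow
    _ = Z.card * T ^ (2 * s.card) := by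
        rw [← pow_add]
        have : d + (s.card - d) = s.card := by omega
        rw [this, ← pow_two, ← pow_mul]
    _ = T ^ (Fintype.card X) := hZ

end CountBad

section CountTwo

variable {X : Type} [Fintype X] [DecidableEq X]

lemma count_two (T : ℕ) (x₁ x₂ : X) (hx : x₁ ≠ x₂) (A B : ℕ) (hA : A ≤ T) (hB : B ≤ T) :
    (univ.filter (fun ω : X → Fin T => (ω x₁).val < A ∧ (ω x₂).val < B)).card * (T * T)
      = A * B * T ^ (Fintype.card X) := by
  classical
  have h1 : (univ.filter (fun ω : X → Fin T => (ω x₁).val < A ∧ (ω x₂).val < B))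
      = Fintype.piFinset (fun x : X => if x = x₁ then univ.filter (fun y : Fin T => y.val < A)
          else if x = x₂ then univ.filter (fun y : Fin T => y.val < B) else univ) := by
    ext ω
    simp only [mem_filter, mem_univ, true_and, Fintype.mem_piFinset]
    constructor
    · rintro ⟨h1, h2⟩ x
      by_cases hx1 : x = x₁
      · subst hx1; simp [h1]
      · by_cases hx2 : x = x₂
        · subst hx2; simp [hx1, h2]
        · simp [hx1, hx2]
    · intro h
      have h1 := h x₁
      have h2 := h x₂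
      simp only [if_true, mem_filter, mem_univ, true_and] at h1
      simp only [Ne.symm hx, if_false, if_true, mem_filter, mem_univ, true_and] at h2
      exact ⟨h1, h2⟩
  have h2 : ∀ x : X, ((if x = x₁ then univ.filter (fun y : Fin T => y.val < A)
          else if x = x₂ then univ.filter (fun y : Fin T => y.val < B) else univ) : Finset (Fin T)).card
          = if x = x₁ then A else if x = x₂ then B else T := by
    intro x
    by_cases hx1 : x = x₁
    · simp only [hx1, if_true]; exact card_lt_filter T A hA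
    · by_cases hx2 : x = x₂
      · simp only [hx2, if_true, if_false, Ne.symm hx]
        exact card_lt_filter T B hB
      · simp [hx1, hx2]
  rw [h1, Fintype.card_piFinset]
  simp only [h2]
  rw [← Finset.mul_prod_erase univ _ (mem_univ x₁)]
  have hx2 : x₂ ∈ (univ : Finset X).erase x₁ := by simp [Ne.symm hx]
  rw [← Finset.mul_prod_erase _ _ hx2]
  have h3 : ∏ x ∈ ((univ : Finset X).erase x₁).erase x₂, (if x = x₁ then A else if x = x₂ then B else T)
      = T ^ (Fintype.card X - 2) := by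
    rw [prod_congr rfl (g := fun _ => T)]
    · rw [prod_const]
      congr 1
      rw [card_erase_of_mem hx2, card_erase_of_mem (mem_univ _)]
      have : (univ : Finset X).card = Fintype.card X := rfl
      omega
    · intro x hx'
      simp only [mem_erase] at hx'
      simp [hx'.1, hx'.2.1]
  rw [h3]
  simp only [if_true, Ne.symm hx, if_false]
  have h4 : 2 ≤ Fintype.card X := by
    have : ({x₁, x₂} : Finset X).card = 2 := card_pair hx
    rw [← this]; exact card_le_univ _
  obtain ⟨c, hc⟩ : ∃ c, Fintype.card X = c + 2 := ⟨Fintype.card X - 2, by omega⟩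
  rw [hc]
  have : c + 2 - 2 = c := by omega
  rw [this, pow_add]
  ring

end CountTwo

section RandomGraph

variable {V : Type} [Fintype V] [DecidableEq V] (π : V → Fin 6) (k : Fin 6 → Fin 6 → ℕ) (K t : ℕ)

/-- raw random edges: between different parts `a ≠ b`, each with probability `t ^ (-k a b)`. -/
def Raw (ω : Sym2 V × Bool → Fin (t ^ K)) (u v : V) : Prop :=
  π u ≠ π v ∧ (ω (s(u, v), false)).val < t ^ (K - k (π u) (π v))

/-- pairs which have a common neighbour through two sparse enough kinds of edges. -/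
def Dst (ω : Sym2 V × Bool → Fin (t ^ K)) (u v : V) : Prop :=
  ∃ y, π u ≠ π y ∧ π v ≠ π y ∧ K < k (π u) (π y) + k (π v) (π y) ∧
    Raw π k K t ω u y ∧ Raw π k K t ω v y

/-- the final graph -/
def FinAdj (ω : Sym2 V × Bool → Fin (t ^ K)) (u v : V) : Prop :=
  Raw π k K t ω u v ∧ ¬ Dst π k K t ω u v

variable {π k K t}

lemma Raw.symm (hk : ∀ a b, k a b = k b a) {ω : Sym2 V × Bool → Fin (t ^ K)} {u v : V}
    (h : Raw π k K t ω u v) : Raw π k K t ω v u := by
  refine ⟨h.1.symm, ?_⟩
  have h2 := h.2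
  rw [Sym2.eq_swap, hk (π v) (π u)]
  exact h2

lemma Dst.symm {ω : Sym2 V × Bool → Fin (t ^ K)} {u v : V}
    (h : Dst π k K t ω u v) : Dst π k K t ω v u := by
  obtain ⟨y, h1, h2, h3, h4, h5⟩ := h
  exact ⟨y, h2, h1, by omega, h5, h4⟩

lemma FinAdj.symm (hk : ∀ a b, k a b = k b a) {ω : Sym2 V × Bool → Fin (t ^ K)} {u v : V}
    (h : FinAdj π k K t ω u v) : FinAdj π k K t ω v u :=
  ⟨h.1.symm hk, fun h' => h.2 h'.symm⟩

/-- the final graph has no triangle. -/
lemma no_triangle (hk : ∀ a b, k a b = k b a)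
    (htri : ∀ a b c, a ≠ b → b ≠ c → a ≠ c → K < k a c + k b c ∨ K < k a b + k c b ∨ K < k b a + k c a)
    {ω : Sym2 V × Bool → Fin (t ^ K)} {u v y : V}
    (h1 : FinAdj π k K t ω u v) (h2 : FinAdj π k K t ω v y) (h3 : FinAdj π k K t ω u y) : False := by
  have e1 := h1.1.1
  have e2 := h2.1.1
  have e3 := h3.1.1
  rcases htri (π u) (π v) (π y) e1 e2 e3 with h | h | h
  · exact h1.2 ⟨y, e3, e2, h, h3.1, h2.1⟩
  · exact h3.2 ⟨v, e1, e2.symm, h, h1.1, h2.1.symm hk⟩
  · exact h2.2 ⟨u, e1.symm, e3.symm, h, h1.1.symm hk, h3.1.symm hk⟩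

section
variable (π : V → Fin 6) (k : Fin 6 → Fin 6 → ℕ) (K t : ℕ)

open Classical in
/-- ordered pairs of vertices in different parts which are destroyed. -/
noncomputable def dset (ω : Sym2 V × Bool → Fin (t ^ K)) : Finset (V × V) :=
  univ.filter (fun p => π p.1 ≠ π p.2 ∧ Dst π k K t ω p.1 p.2)

variable {π k K t}

lemma sym2_ne_of {a b c d : V} (h : ¬ (a = c ∧ b = d)) (h' : ¬ (a = d ∧ b = c)) : s(a, b) ≠ s(c, d) := by
  intro he
  rw [Sym2.eq_iff] at he
  rcases he with he | he
  · exact h he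
  · exact h' he

open Classical in
lemma dset_sum (ht : 0 < t) (hk : ∀ a b, a ≠ b → k a b ≤ K) (hK1 : 1 ≤ K) :
    (∑ ω : Sym2 V × Bool → Fin (t ^ K), (dset π k K t ω).card) * t ^ (K + 1)
      ≤ (Fintype.card V) ^ 3 * (t ^ K) ^ (Fintype.card (Sym2 V × Bool)) := by
  -- triples
  let cond : V × V × V → Prop := fun p => π p.1 ≠ π p.2.1 ∧ π p.1 ≠ π p.2.2 ∧ π p.2.1 ≠ π p.2.2 ∧
    K < k (π p.1) (π p.2.2) + k (π p.2.1) (π p.2.2)
  let ev : (Sym2 V × Bool → Fin (t ^ K)) → V × V × V → Prop := fun ω p =>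
    Raw π k K t ω p.1 p.2.2 ∧ Raw π k K t ω p.2.1 p.2.2
  have h1 : ∀ ω : Sym2 V × Bool → Fin (t ^ K), (dset π k K t ω).card ≤
      ∑ p : V × V × V, (if cond p ∧ ev ω p then 1 else 0) := by
    intro ω
    rw [← Finset.card_filter]
    have : (dset π k K t ω) ⊆
        (univ.filter (fun p : V × V × V => cond p ∧ ev ω p)).image (fun p => (p.1, p.2.1)) := by
      intro p hp
      have hp' := (mem_filter.1 hp).2
      obtain ⟨hne, y, h1, h2, h3, h4, h5⟩ := hp'
      refine mem_image.2 ⟨(p.1, p.2, y), ?_, rfl⟩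
      exact mem_filter.2 ⟨mem_univ _, ⟨hne, h1, h2, h3⟩, h4, h5⟩
    exact (card_le_card this).trans card_image_le
  have h2 : ∀ p : V × V × V, (∑ ω : Sym2 V × Bool → Fin (t ^ K), (if cond p ∧ ev ω p then 1 else 0))
      * t ^ (K+1) ≤ (t ^ K) ^ (Fintype.card (Sym2 V × Bool)) := by
    intro p
    rw [← Finset.card_filter]
    by_cases hc : cond p
    · obtain ⟨c1, c2, c3, c4⟩ := hc
      set A := t ^ (K - k (π p.1) (π p.2.2)) with hA
      set B := t ^ (K - k (π p.2.1) (π p.2.2)) with hB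
      have hsub : (univ.filter (fun ω : Sym2 V × Bool → Fin (t ^ K) => cond p ∧ ev ω p)) ⊆
          univ.filter (fun ω => (ω (s(p.1, p.2.2), false)).val < A ∧ (ω (s(p.2.1, p.2.2), false)).val < B) := by
        intro ω hω
        have hω' := (mem_filter.1 hω).2
        exact mem_filter.2 ⟨mem_univ _, hω'.2.1.2, hω'.2.2.2⟩
      have hne : ((s(p.1, p.2.2), false) : Sym2 V × Bool) ≠ (s(p.2.1, p.2.2), false) := by
        intro h
        have h' := (Prod.mk.inj h).1
        rw [Sym2.eq_iff] at h'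
        rcases h' with h' | h'
        · exact c1 (by rw [h'.1])
        · exact c2 (by rw [h'.1])
      have hAle : A ≤ t ^ K := Nat.pow_le_pow_right ht (Nat.sub_le _ _)
      have hBle : B ≤ t ^ K := Nat.pow_le_pow_right ht (Nat.sub_le _ _)
      have h3 := count_two (t ^ K) _ _ hne A B hAle hBle
      have h4 : A * B ≤ t ^ (K - 1) := by
        rw [hA, hB, ← pow_add]
        apply Nat.pow_le_pow_right ht
        have := hk _ _ c2
        have := hk _ _ c3
        omega
      have h5 : (univ.filter (fun ω : Sym2 V × Bool → Fin (t ^ K) => cond p ∧ ev ω p)).card * t ^ (K+1) * t ^ (K-1)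
          ≤ (t ^ K) ^ (Fintype.card (Sym2 V × Bool)) * t ^ (K-1) := by
        calc (univ.filter (fun ω : Sym2 V × Bool → Fin (t ^ K) => cond p ∧ ev ω p)).card * t ^ (K+1) * t ^ (K-1)
            = (univ.filter (fun ω : Sym2 V × Bool → Fin (t ^ K) => cond p ∧ ev ω p)).card * (t ^ K * t ^ K) := by
              rw [mul_assoc, ← pow_add, ← pow_add]
              congr 2; omega
          _ ≤ (univ.filter (fun ω : Sym2 V × Bool → Fin (t ^ K) => (ω (s(p.1, p.2.2), false)).val < A ∧ (ω (s(p.2.1, p.2.2), false)).val < B)).card * (t ^ K * t ^ K) :=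
              Nat.mul_le_mul_right _ (card_le_card hsub)
          _ = A * B * (t ^ K) ^ (Fintype.card (Sym2 V × Bool)) := h3
          _ ≤ t ^ (K-1) * (t ^ K) ^ (Fintype.card (Sym2 V × Bool)) := Nat.mul_le_mul_right _ h4
          _ = _ := by ring
      exact Nat.le_of_mul_le_mul_right h5 (pow_pos ht _)
    · have : (univ.filter (fun ω : Sym2 V × Bool → Fin (t ^ K) => cond p ∧ ev ω p)) = ∅ := by
        apply filter_eq_empty_iff.2
        intro ω _ h
        exact hc h.1
      rw [this]; simp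
  calc (∑ ω : Sym2 V × Bool → Fin (t ^ K), (dset π k K t ω).card) * t ^ (K + 1)
      ≤ (∑ ω : Sym2 V × Bool → Fin (t ^ K), ∑ p : V × V × V, (if cond p ∧ ev ω p then 1 else 0)) * t ^ (K+1) :=
        Nat.mul_le_mul_right _ (sum_le_sum (fun ω _ => h1 ω))
    _ = ∑ p : V × V × V, (∑ ω : Sym2 V × Bool → Fin (t ^ K), (if cond p ∧ ev ω p then 1 else 0)) * t ^ (K+1) := by
        rw [sum_comm, sum_mul]
    _ ≤ ∑ p : V × V × V, (t ^ K) ^ (Fintype.card (Sym2 V × Bool)) := sum_le_sum (fun p _ => h2 p)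
    _ = (Fintype.card V) ^ 3 * (t ^ K) ^ (Fintype.card (Sym2 V × Bool)) := by
        rw [sum_const, smul_eq_mul]
        congr 1
        have : (univ : Finset (V × V × V)).card = Fintype.card (V × V × V) := rfl
        rw [this, Fintype.card_prod, Fintype.card_prod]; ring

open Classical in
lemma bad_A (ht : 0 < t) (hK1 : 1 ≤ K)
    (φ : V → V) (I J : Finset V) (a a' b b' : Fin 6) (ha : a ≠ a') (hb : b ≠ b')
    (hI : ∀ x ∈ I, π x = a ∧ π (φ x) = b) (hJ : ∀ x ∈ J, π x = a' ∧ π (φ x) = b')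
    (inj : ∀ x ∈ I ∪ J, ∀ y ∈ I ∪ J, φ x = φ y → x = y)
    (disj : ∀ x ∈ I ∪ J, ∀ y ∈ I ∪ J, φ x ≠ y)
    (hkk : k a a' + k b b' + 1 ≤ K) (d L : ℕ) (hcard : 2 * d + t ^ (K-1) * L ≤ I.card * J.card) :
    (univ.filter (fun ω : Sym2 V × Bool → Fin (t ^ K) => (dset π k K t ω).card ≤ d ∧
      ∀ i ∈ I, ∀ j ∈ J, ¬ (FinAdj π k K t ω i j ∧ FinAdj π k K t ω (φ i) (φ j)))).card * 2 ^ L
      ≤ (t ^ K) ^ (Fintype.card (Sym2 V × Bool)) := by
  have hT : 0 < t ^ K := pow_pos ht _
  let α : V × V → Sym2 V × Bool := fun p => (s(p.1, p.2), false)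
  let β : V × V → Sym2 V × Bool := fun p => (s(φ p.1, φ p.2), false)
  have memI : ∀ x ∈ I, x ∈ I ∪ J := fun x hx => mem_union_left _ hx
  have memJ : ∀ x ∈ J, x ∈ I ∪ J := fun x hx => mem_union_right _ hx
  have hIJ : ∀ x ∈ I, ∀ y ∈ J, x ≠ y := by
    intro x hx y hy h
    apply ha; rw [← (hI x hx).1, ← (hJ y hy).1, h]
  have hφIJ : ∀ x ∈ I, ∀ y ∈ J, φ x ≠ φ y := by
    intro x hx y hy h
    apply hb; rw [← (hI x hx).2, ← (hJ y hy).2, h]
  have hα : ∀ p ∈ I ×ˢ J, ∀ p' ∈ I ×ˢ J, α p = α p' → p = p' := by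
    intro p hp p' hp' h
    rw [mem_product] at hp hp'
    have h' := (Prod.mk.inj h).1
    rw [Sym2.eq_iff] at h'
    rcases h' with h' | h'
    · exact Prod.ext h'.1 h'.2
    · exact absurd h'.1 (hIJ _ hp.1 _ hp'.2)
  have hβ : ∀ p ∈ I ×ˢ J, ∀ p' ∈ I ×ˢ J, β p = β p' → p = p' := by
    intro p hp p' hp' h
    rw [mem_product] at hp hp'
    have h' := (Prod.mk.inj h).1
    rw [Sym2.eq_iff] at h'
    rcases h' with h' | h'
    · exact Prod.ext (inj _ (memI _ hp.1) _ (memI _ hp'.1) h'.1) (inj _ (memJ _ hp.2) _ (memJ _ hp'.2) h'.2)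
    · exact absurd h'.1 (hφIJ _ hp.1 _ hp'.2)
  have hαβ : ∀ p ∈ I ×ˢ J, ∀ p' ∈ I ×ˢ J, α p ≠ β p' := by
    intro p hp p' hp' h
    rw [mem_product] at hp hp'
    have h' := (Prod.mk.inj h).1
    rw [Sym2.eq_iff] at h'
    rcases h' with h' | h'
    · exact disj _ (memI _ hp'.1) _ (memI _ hp.1) h'.1.symm
    · exact disj _ (memJ _ hp'.2) _ (memI _ hp.1) h'.1.symm
  set A := t ^ (K - k a a') with hA
  set B := t ^ (K - k b b') with hB
  have hAle : A ≤ t ^ K := Nat.pow_le_pow_right ht (Nat.sub_le _ _)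
  have hBle : B ≤ t ^ K := Nat.pow_le_pow_right ht (Nat.sub_le _ _)
  let D : (Sym2 V × Bool → Fin (t ^ K)) → V × V → Prop := fun ω p =>
    Dst π k K t ω p.1 p.2 ∨ Dst π k K t ω (φ p.1) (φ p.2)
  have hD : ∀ ω ω' : Sym2 V × Bool → Fin (t ^ K),
      (∀ x, (∀ p ∈ I ×ˢ J, x ≠ α p ∧ x ≠ β p) → ω x = ω' x) →
      ∀ p ∈ I ×ˢ J, D ω p → D ω' p := by
    intro ω ω' hagree p hp hDp
    rw [mem_product] at hp
    -- transfer of one raw edge
    have key : ∀ u y : V, (∀ p ∈ I ×ˢ J, ((s(u, y), false) : Sym2 V × Bool) ≠ α p ∧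
        ((s(u, y), false) : Sym2 V × Bool) ≠ β p) → Raw π k K t ω u y → Raw π k K t ω' u y := by
      intro u y h hr
      refine ⟨hr.1, ?_⟩
      rw [← hagree _ h]; exact hr.2
    rcases hDp with ⟨y, h1, h2, h3, h4, h5⟩ | ⟨y, h1, h2, h3, h4, h5⟩
    · left
      refine ⟨y, h1, h2, h3, key _ _ ?_ h4, key _ _ ?_ h5⟩
      · intro p' hp'
        rw [mem_product] at hp'
        constructor
        · intro h
          have h' := (Prod.mk.inj h).1
          rw [Sym2.eq_iff] at h'
          rcases h' with h' | h'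
          · apply h2; rw [h'.2, (hJ _ hp.2).1, (hJ _ hp'.2).1]
          · exact hIJ _ hp.1 _ hp'.2 h'.1
        · intro h
          have h' := (Prod.mk.inj h).1
          rw [Sym2.eq_iff] at h'
          rcases h' with h' | h'
          · exact disj _ (memI _ hp'.1) _ (memI _ hp.1) h'.1.symm
          · exact disj _ (memJ _ hp'.2) _ (memI _ hp.1) h'.1.symm
      · intro p' hp'
        rw [mem_product] at hp'
        constructor
        · intro h
          have h' := (Prod.mk.inj h).1
          rw [Sym2.eq_iff] at h'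
          rcases h' with h' | h'
          · exact hIJ _ hp'.1 _ hp.2 h'.1.symm
          · apply h1; rw [h'.2, (hI _ hp.1).1, (hI _ hp'.1).1]
        · intro h
          have h' := (Prod.mk.inj h).1
          rw [Sym2.eq_iff] at h'
          rcases h' with h' | h'
          · exact disj _ (memI _ hp'.1) _ (memJ _ hp.2) h'.1.symm
          · exact disj _ (memJ _ hp'.2) _ (memJ _ hp.2) h'.1.symm
    · right
      refine ⟨y, h1, h2, h3, key _ _ ?_ h4, key _ _ ?_ h5⟩
      · intro p' hp'
        rw [mem_product] at hp'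
        constructor
        · intro h
          have h' := (Prod.mk.inj h).1
          rw [Sym2.eq_iff] at h'
          rcases h' with h' | h'
          · exact disj _ (memI _ hp.1) _ (memI _ hp'.1) h'.1
          · exact disj _ (memI _ hp.1) _ (memJ _ hp'.2) h'.1
        · intro h
          have h' := (Prod.mk.inj h).1
          rw [Sym2.eq_iff] at h'
          rcases h' with h' | h'
          · apply h2; rw [h'.2, (hJ _ hp.2).2, (hJ _ hp'.2).2]
          · exact hφIJ _ hp.1 _ hp'.2 h'.1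
      · intro p' hp'
        rw [mem_product] at hp'
        constructor
        · intro h
          have h' := (Prod.mk.inj h).1
          rw [Sym2.eq_iff] at h'
          rcases h' with h' | h'
          · exact disj _ (memJ _ hp.2) _ (memI _ hp'.1) h'.1
          · exact disj _ (memJ _ hp.2) _ (memJ _ hp'.2) h'.1
        · intro h
          have h' := (Prod.mk.inj h).1
          rw [Sym2.eq_iff] at h'
          rcases h' with h' | h'
          · exact hφIJ _ hp'.1 _ hp.2 h'.1.symm
          · apply h1; rw [h'.2, (hI _ hp.1).2, (hI _ hp'.1).2]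
  have hq : t ^ K * t ^ K ≤ A * B * t ^ (K - 1) := by
    rw [hA, hB, ← pow_add, ← pow_add, ← pow_add]
    apply Nat.pow_le_pow_right ht
    omega
  refine count_bad (t ^ K) hT (I ×ˢ J) α β hα hβ hαβ A B hAle hBle D hD (2 * d) L (t ^ (K-1)) hq
    (by rw [card_product]; exact hcard) _ ?_ ?_
  · intro ω hω F hF hFD
    obtain ⟨hω1, hω2⟩ := (mem_filter.1 hω).2
    refine le_trans (card_le_card (fun p hp => mem_filter.2 ⟨hF hp, hFD p hp⟩ : F ⊆ (I ×ˢ J).filter (fun p => D ω p))) ?_
    have hsub : ((I ×ˢ J).filter (fun p => D ω p)) ⊆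
        ((I ×ˢ J).filter (fun p => Dst π k K t ω p.1 p.2)) ∪
        ((I ×ˢ J).filter (fun p => Dst π k K t ω (φ p.1) (φ p.2))) := by
      intro p hp
      obtain ⟨hp1, hp2⟩ := mem_filter.1 hp
      rcases hp2 with h | h
      · exact mem_union_left _ (mem_filter.2 ⟨hp1, h⟩)
      · exact mem_union_right _ (mem_filter.2 ⟨hp1, h⟩)
    have c1 : ((I ×ˢ J).filter (fun p => Dst π k K t ω p.1 p.2)).card ≤ d := by
      refine le_trans (card_le_card ?_) hω1
      intro p hp
      obtain ⟨hp1, hp2⟩ := mem_filter.1 hp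
      rw [mem_product] at hp1
      refine mem_filter.2 ⟨mem_univ _, ?_, hp2⟩
      rw [(hI _ hp1.1).1, (hJ _ hp1.2).1]; exact ha
    have c2 : ((I ×ˢ J).filter (fun p => Dst π k K t ω (φ p.1) (φ p.2))).card ≤ d := by
      refine le_trans (card_le_card_of_injOn (fun p => (φ p.1, φ p.2)) ?_ ?_) hω1
      · intro p hp
        obtain ⟨hp1, hp2⟩ := mem_filter.1 hp
        rw [mem_product] at hp1
        refine mem_coe.2 (mem_filter.2 ⟨mem_univ _, ?_, hp2⟩)
        show π (φ p.1) ≠ π (φ p.2)
        rw [(hI _ hp1.1).2, (hJ _ hp1.2).2]; exact hb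
      · intro p hp p' hp' h
        have hp1 := mem_product.1 (mem_filter.1 hp).1
        have hp1' := mem_product.1 (mem_filter.1 hp').1
        have h' := Prod.mk.inj h
        exact Prod.ext (inj _ (memI _ hp1.1) _ (memI _ hp1'.1) h'.1)
          (inj _ (memJ _ hp1.2) _ (memJ _ hp1'.2) h'.2)
    calc ((I ×ˢ J).filter (fun p => D ω p)).card ≤ _ := card_le_card hsub
      _ ≤ _ + _ := card_union_le _ _
      _ ≤ d + d := Nat.add_le_add c1 c2
      _ = 2 * d := by ring
  · intro ω hω p hp hnD hboth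
    obtain ⟨hω1, hω2⟩ := (mem_filter.1 hω).2
    rw [mem_product] at hp
    apply hω2 p.1 hp.1 p.2 hp.2
    have hn1 : ¬ Dst π k K t ω p.1 p.2 := fun h => hnD (Or.inl h)
    have hn2 : ¬ Dst π k K t ω (φ p.1) (φ p.2) := fun h => hnD (Or.inr h)
    refine ⟨⟨⟨?_, ?_⟩, hn1⟩, ⟨⟨?_, ?_⟩, hn2⟩⟩
    · rw [(hI _ hp.1).1, (hJ _ hp.2).1]; exact ha
    · rw [(hI _ hp.1).1, (hJ _ hp.2).1]; exact hboth.1
    · rw [(hI _ hp.1).2, (hJ _ hp.2).2]; exact hb
    · rw [(hI _ hp.1).2, (hJ _ hp.2).2]; exact hboth.2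

open Classical in
lemma bad_B (ht : 0 < t) (hK1 : 1 ≤ K)
    (I J : Finset V) (a a' : Fin 6) (ha : a ≠ a')
    (hI : ∀ x ∈ I, π x = a) (hJ : ∀ x ∈ J, π x = a')
    (hkk : k a a' + 1 ≤ K) (d L : ℕ) (hcard : d + t ^ (K-1) * L ≤ I.card * J.card) :
    (univ.filter (fun ω : Sym2 V × Bool → Fin (t ^ K) => (dset π k K t ω).card ≤ d ∧
      ∀ i ∈ I, ∀ j ∈ J, ¬ (FinAdj π k K t ω i j))).card * 2 ^ L
      ≤ (t ^ K) ^ (Fintype.card (Sym2 V × Bool)) := by
  have hT : 0 < t ^ K := pow_pos ht _
  let α : V × V → Sym2 V × Bool := fun p => (s(p.1, p.2), false)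
  let β : V × V → Sym2 V × Bool := fun p => (s(p.1, p.2), true)
  have hIJ : ∀ x ∈ I, ∀ y ∈ J, x ≠ y := by
    intro x hx y hy h
    apply ha; rw [← (hI x hx), ← (hJ y hy), h]
  have hα : ∀ p ∈ I ×ˢ J, ∀ p' ∈ I ×ˢ J, α p = α p' → p = p' := by
    intro p hp p' hp' h
    rw [mem_product] at hp hp'
    have h' := (Prod.mk.inj h).1
    rw [Sym2.eq_iff] at h'
    rcases h' with h' | h'
    · exact Prod.ext h'.1 h'.2
    · exact absurd h'.1 (hIJ _ hp.1 _ hp'.2)
  have hβ : ∀ p ∈ I ×ˢ J, ∀ p' ∈ I ×ˢ J, β p = β p' → p = p' := by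
    intro p hp p' hp' h
    rw [mem_product] at hp hp'
    have h' := (Prod.mk.inj h).1
    rw [Sym2.eq_iff] at h'
    rcases h' with h' | h'
    · exact Prod.ext h'.1 h'.2
    · exact absurd h'.1 (hIJ _ hp.1 _ hp'.2)
  have hαβ : ∀ p ∈ I ×ˢ J, ∀ p' ∈ I ×ˢ J, α p ≠ β p' := by
    intro p hp p' hp' h
    have h' := (Prod.mk.inj h).2
    exact Bool.false_ne_true h'
  set A := t ^ (K - k a a') with hA
  have hAle : A ≤ t ^ K := Nat.pow_le_pow_right ht (Nat.sub_le _ _)
  let D : (Sym2 V × Bool → Fin (t ^ K)) → V × V → Prop := fun ω p =>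
    Dst π k K t ω p.1 p.2
  have hD : ∀ ω ω' : Sym2 V × Bool → Fin (t ^ K),
      (∀ x, (∀ p ∈ I ×ˢ J, x ≠ α p ∧ x ≠ β p) → ω x = ω' x) →
      ∀ p ∈ I ×ˢ J, D ω p → D ω' p := by
    intro ω ω' hagree p hp hDp
    rw [mem_product] at hp
    have key : ∀ u y : V, (∀ p ∈ I ×ˢ J, ((s(u, y), false) : Sym2 V × Bool) ≠ α p) →
        Raw π k K t ω u y → Raw π k K t ω' u y := by
      intro u y h hr
      refine ⟨hr.1, ?_⟩
      rw [← hagree _ (fun p hp => ⟨h p hp, fun h' => Bool.false_ne_true (Prod.mk.inj h').2⟩)]; exact hr.2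
    obtain ⟨y, h1, h2, h3, h4, h5⟩ := hDp
    refine ⟨y, h1, h2, h3, key _ _ ?_ h4, key _ _ ?_ h5⟩
    · intro p' hp' h
      rw [mem_product] at hp'
      have h' := (Prod.mk.inj h).1
      rw [Sym2.eq_iff] at h'
      rcases h' with h' | h'
      · apply h2; rw [h'.2, (hJ _ hp.2), (hJ _ hp'.2)]
      · exact hIJ _ hp.1 _ hp'.2 h'.1
    · intro p' hp' h
      rw [mem_product] at hp'
      have h' := (Prod.mk.inj h).1
      rw [Sym2.eq_iff] at h'
      rcases h' with h' | h'
      · exact hIJ _ hp'.1 _ hp.2 h'.1.symm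
      · apply h1; rw [h'.2, (hI _ hp.1), (hI _ hp'.1)]
  have hq : t ^ K * t ^ K ≤ A * t ^ K * t ^ (K - 1) := by
    rw [hA, ← pow_add, ← pow_add, ← pow_add]
    apply Nat.pow_le_pow_right ht
    omega
  refine count_bad (t ^ K) hT (I ×ˢ J) α β hα hβ hαβ A (t ^ K) hAle le_rfl D hD d L (t ^ (K-1)) hq
    (by rw [card_product]; exact hcard) _ ?_ ?_
  · intro ω hω F hF hFD
    obtain ⟨hω1, hω2⟩ := (mem_filter.1 hω).2
    refine le_trans (card_le_card ?_) hω1
    intro p hp
    have hp1 := hF hp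
    have hp2 := hFD p hp
    rw [mem_product] at hp1
    refine mem_filter.2 ⟨mem_univ _, ?_, hp2⟩
    rw [(hI _ hp1.1), (hJ _ hp1.2)]; exact ha
  · intro ω hω p hp hnD hboth
    obtain ⟨hω1, hω2⟩ := (mem_filter.1 hω).2
    rw [mem_product] at hp
    apply hω2 p.1 hp.1 p.2 hp.2
    refine ⟨⟨?_, ?_⟩, hnD⟩
    · rw [(hI _ hp.1), (hJ _ hp.2)]; exact ha
    · rw [(hI _ hp.1), (hJ _ hp.2)]; exact hboth.1

open Classical in
/-- Existence of a good outcome, by the union bound. -/
theorem exists_good (ht : 0 < t) (hK1 : 1 ≤ K)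
    (hkK : ∀ a b, a ≠ b → k a b + 1 ≤ K) (s d L : ℕ)
    (hs : 2 * d + t ^ (K-1) * L ≤ s * s)
    (h0 : 4 * (Fintype.card V) ^ 3 ≤ (d + 1) * t ^ (K+1))
    (h1 : 4 * ((Fintype.card V) ^ (Fintype.card V) * (2 ^ (Fintype.card V) * 2 ^ (Fintype.card V))) ≤ 2 ^ L)
    (hV : 0 < Fintype.card V) :
    ∃ ω : Sym2 V × Bool → Fin (t ^ K),
      (∀ (φ : V → V) (I J : Finset V) (a a' b b' : Fin 6), a ≠ a' → b ≠ b' →
        (∀ x ∈ I, π x = a ∧ π (φ x) = b) → (∀ x ∈ J, π x = a' ∧ π (φ x) = b') →
        (∀ x ∈ I ∪ J, ∀ y ∈ I ∪ J, φ x = φ y → x = y) →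
        (∀ x ∈ I ∪ J, ∀ y ∈ I ∪ J, φ x ≠ y) →
        k a a' + k b b' + 1 ≤ K → s ≤ I.card → s ≤ J.card →
        ∃ i ∈ I, ∃ j ∈ J, FinAdj π k K t ω i j ∧ FinAdj π k K t ω (φ i) (φ j)) ∧
      (∀ (I J : Finset V) (a a' : Fin 6), a ≠ a' → (∀ x ∈ I, π x = a) → (∀ x ∈ J, π x = a') →
        s ≤ I.card → s ≤ J.card → ∃ i ∈ I, ∃ j ∈ J, FinAdj π k K t ω i j) := by
  set n := Fintype.card V with hn
  set M := (t ^ K) ^ (Fintype.card (Sym2 V × Bool)) with hM
  have hT : 0 < t ^ K := pow_pos ht _
  have hMpos : 0 < M := pow_pos hT _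
  have hcardΩ : (univ : Finset (Sym2 V × Bool → Fin (t ^ K))).card = M := by
    rw [card_univ, Fintype.card_fun, Fintype.card_fin]
  -- E0
  let E0 : Finset (Sym2 V × Bool → Fin (t ^ K)) := univ.filter (fun ω => ¬ (dset π k K t ω).card ≤ d)
  have hE0 : E0.card * 4 ≤ M := by
    have hsum := dset_sum (π := π) (k := k) (K := K) (t := t) ht (fun a b hab => by have := hkK a b hab; omega) hK1
    have h2 : E0.card * (d + 1) ≤ ∑ ω : Sym2 V × Bool → Fin (t ^ K), (dset π k K t ω).card := by
      calc E0.card * (d+1) = ∑ ω ∈ E0, (d+1) := by rw [sum_const, smul_eq_mul]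
        _ ≤ ∑ ω ∈ E0, (dset π k K t ω).card := by
            apply sum_le_sum
            intro ω hω
            have := (mem_filter.1 hω).2
            omega
        _ ≤ _ := sum_le_sum_of_subset (filter_subset _ _)
    have h3 : E0.card * (d+1) * t ^ (K+1) ≤ n ^ 3 * M := (Nat.mul_le_mul_right _ h2).trans hsum
    have h4 : E0.card * 4 * ((d+1) * t ^ (K+1)) ≤ M * ((d+1) * t ^ (K+1)) := by
      calc E0.card * 4 * ((d+1) * t ^ (K+1)) = 4 * (E0.card * (d+1) * t ^ (K+1)) := by ring
        _ ≤ 4 * (n ^ 3 * M) := Nat.mul_le_mul_left _ h3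
        _ = M * (4 * n ^ 3) := by ring
        _ ≤ _ := Nat.mul_le_mul_left _ h0
    exact Nat.le_of_mul_le_mul_right h4 (Nat.mul_pos (Nat.succ_pos _) (pow_pos ht _))
  -- E1
  let valid1 : (V → V) × (Finset V × Finset V) → Prop := fun q =>
    ∃ a a' b b' : Fin 6, a ≠ a' ∧ b ≠ b' ∧
        (∀ x ∈ q.2.1, π x = a ∧ π (q.1 x) = b) ∧ (∀ x ∈ q.2.2, π x = a' ∧ π (q.1 x) = b') ∧
        (∀ x ∈ q.2.1 ∪ q.2.2, ∀ y ∈ q.2.1 ∪ q.2.2, q.1 x = q.1 y → x = y) ∧
        (∀ x ∈ q.2.1 ∪ q.2.2, ∀ y ∈ q.2.1 ∪ q.2.2, q.1 x ≠ y) ∧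
        k a a' + k b b' + 1 ≤ K ∧ s ≤ q.2.1.card ∧ s ≤ q.2.2.card
  let bad1 : (V → V) × (Finset V × Finset V) → Finset (Sym2 V × Bool → Fin (t ^ K)) := fun q =>
    univ.filter (fun ω => (dset π k K t ω).card ≤ d ∧
      ∀ i ∈ q.2.1, ∀ j ∈ q.2.2, ¬ (FinAdj π k K t ω i j ∧ FinAdj π k K t ω (q.1 i) (q.1 j)))
  let E1 : Finset (Sym2 V × Bool → Fin (t ^ K)) := (univ.filter valid1).biUnion bad1
  have hE1 : E1.card * 4 ≤ M := by
    have hb : ∀ q ∈ univ.filter valid1, (bad1 q).card * 2 ^ L ≤ M := by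
      intro q hq
      obtain ⟨a, a', b, b', ha, hb, hI, hJ, inj, disj, hkk, hsI, hsJ⟩ := (mem_filter.1 hq).2
      exact bad_A ht hK1 q.1 q.2.1 q.2.2 a a' b b' ha hb hI hJ inj disj hkk d L
        (hs.trans (Nat.mul_le_mul hsI hsJ))
    have hc : E1.card ≤ ∑ q ∈ univ.filter valid1, (bad1 q).card := card_biUnion_le
    have hcardq : (univ.filter valid1).card ≤ n ^ n * (2 ^ n * 2 ^ n) := by
      refine (card_filter_le _ _).trans ?_
      rw [card_univ, Fintype.card_prod, Fintype.card_prod, Fintype.card_fun, Fintype.card_finset]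
    have h2 : E1.card * 2 ^ L ≤ (n ^ n * (2 ^ n * 2 ^ n)) * M := by
      calc E1.card * 2 ^ L ≤ (∑ q ∈ univ.filter valid1, (bad1 q).card) * 2 ^ L := Nat.mul_le_mul_right _ hc
        _ = ∑ q ∈ univ.filter valid1, (bad1 q).card * 2 ^ L := by rw [sum_mul]
        _ ≤ ∑ q ∈ univ.filter valid1, M := sum_le_sum hb
        _ = (univ.filter valid1).card * M := by rw [sum_const, smul_eq_mul]
        _ ≤ _ := Nat.mul_le_mul_right _ hcardq
    have h3 : E1.card * 4 * 2 ^ L ≤ M * 2 ^ L := by
      calc E1.card * 4 * 2 ^ L = 4 * (E1.card * 2 ^ L) := by ring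
        _ ≤ 4 * ((n ^ n * (2 ^ n * 2 ^ n)) * M) := Nat.mul_le_mul_left _ h2
        _ = M * (4 * (n ^ n * (2 ^ n * 2 ^ n))) := by ring
        _ ≤ _ := Nat.mul_le_mul_left _ h1
    exact Nat.le_of_mul_le_mul_right h3 (pow_pos (by norm_num) _)
  -- E2
  let valid2 : Finset V × Finset V → Prop := fun q =>
    ∃ a a' : Fin 6, a ≠ a' ∧ (∀ x ∈ q.1, π x = a) ∧ (∀ x ∈ q.2, π x = a') ∧ s ≤ q.1.card ∧ s ≤ q.2.card
  let bad2 : Finset V × Finset V → Finset (Sym2 V × Bool → Fin (t ^ K)) := fun q =>
    univ.filter (fun ω => (dset π k K t ω).card ≤ d ∧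
      ∀ i ∈ q.1, ∀ j ∈ q.2, ¬ (FinAdj π k K t ω i j))
  let E2 : Finset (Sym2 V × Bool → Fin (t ^ K)) := (univ.filter valid2).biUnion bad2
  have hE2 : E2.card * 4 ≤ M := by
    have hb : ∀ q ∈ univ.filter valid2, (bad2 q).card * 2 ^ L ≤ M := by
      intro q hq
      obtain ⟨a, a', ha, hI, hJ, hsI, hsJ⟩ := (mem_filter.1 hq).2
      refine bad_B ht hK1 q.1 q.2 a a' ha hI hJ (hkK a a' ha) d L ?_
      refine le_trans ?_ (Nat.mul_le_mul hsI hsJ)
      omega
    have hc : E2.card ≤ ∑ q ∈ univ.filter valid2, (bad2 q).card := card_biUnion_le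
    have hcardq : (univ.filter valid2).card ≤ n ^ n * (2 ^ n * 2 ^ n) := by
      refine (card_filter_le _ _).trans ?_
      rw [card_univ, Fintype.card_prod, Fintype.card_finset]
      exact Nat.le_mul_of_pos_left _ (pow_pos hV _)
    have h2 : E2.card * 2 ^ L ≤ (n ^ n * (2 ^ n * 2 ^ n)) * M := by
      calc E2.card * 2 ^ L ≤ (∑ q ∈ univ.filter valid2, (bad2 q).card) * 2 ^ L := Nat.mul_le_mul_right _ hc
        _ = ∑ q ∈ univ.filter valid2, (bad2 q).card * 2 ^ L := by rw [sum_mul]
        _ ≤ ∑ q ∈ univ.filter valid2, M := sum_le_sum hb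
        _ = (univ.filter valid2).card * M := by rw [sum_const, smul_eq_mul]
        _ ≤ _ := Nat.mul_le_mul_right _ hcardq
    have h3 : E2.card * 4 * 2 ^ L ≤ M * 2 ^ L := by
      calc E2.card * 4 * 2 ^ L = 4 * (E2.card * 2 ^ L) := by ring
        _ ≤ 4 * ((n ^ n * (2 ^ n * 2 ^ n)) * M) := Nat.mul_le_mul_left _ h2
        _ = M * (4 * (n ^ n * (2 ^ n * 2 ^ n))) := by ring
        _ ≤ _ := Nat.mul_le_mul_left _ h1
    exact Nat.le_of_mul_le_mul_right h3 (pow_pos (by norm_num) _)
  -- a good outcome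
  have hlt : (E0 ∪ E1 ∪ E2).card < (univ : Finset (Sym2 V × Bool → Fin (t ^ K))).card := by
    rw [hcardΩ]
    have h2 : (E0 ∪ E1 ∪ E2).card ≤ E0.card + E1.card + E2.card :=
      (card_union_le _ _).trans (Nat.add_le_add_right (card_union_le _ _) _)
    omega
  obtain ⟨ω, -, hω⟩ := exists_mem_notMem_of_card_lt_card hlt
  have hω0 : ω ∉ E0 := fun h => hω (mem_union_left _ (mem_union_left _ h))
  have hω1 : ω ∉ E1 := fun h => hω (mem_union_left _ (mem_union_right _ h))
  have hω2 : ω ∉ E2 := fun h => hω (mem_union_right _ h)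
  have hd : (dset π k K t ω).card ≤ d := by
    by_contra h
    exact hω0 (mem_filter.2 ⟨mem_univ _, h⟩)
  refine ⟨ω, ?_, ?_⟩
  · intro φ I J a a' b b' ha hb hI hJ inj disj hkk hsI hsJ
    by_contra hcon
    push Not at hcon
    apply hω1
    refine mem_biUnion.2 ⟨(φ, I, J), mem_filter.2 ⟨mem_univ _, a, a', b, b', ha, hb, hI, hJ, inj, disj, hkk, hsI, hsJ⟩, ?_⟩
    refine mem_filter.2 ⟨mem_univ _, hd, ?_⟩
    intro i hi j hj h
    exact hcon i hi j hj h.1 h.2
  · intro I J a a' ha hI hJ hsI hsJ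
    by_contra hcon
    push Not at hcon
    apply hω2
    refine mem_biUnion.2 ⟨(I, J), mem_filter.2 ⟨mem_univ _, a, a', ha, hI, hJ, hsI, hsJ⟩, ?_⟩
    exact mem_filter.2 ⟨mem_univ _, hd, hcon⟩

end

end RandomGraph


/-- exponents of the densities between the six parts -/
def kmat : Fin 6 → Fin 6 → ℕ :=
  ![![0, 12, 10, 6, 10, 4], ![12, 0, 10, 12, 4, 2], ![10, 10, 0, 2, 14, 6],
    ![6, 12, 2, 0, 2, 10], ![10, 4, 14, 2, 0, 12], ![4, 2, 6, 10, 12, 0]]

/-- relative sizes of the six parts -/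
def wt : Fin 6 → ℕ := ![3, 1, 3, 4, 2, 6]

def conf (a b c d : Fin 6) : Bool := decide (a ≠ c) && decide (b ≠ d) && decide (kmat a c + kmat b d + 1 ≤ 15)

inductive Tr where
  | leaf (S : Finset (Fin 6)) : Tr
  | node (a b : Fin 6) (l r : Tr) : Tr

def chk : Tr → (Fin 6 → Fin 6 → Bool) → Bool
  | .leaf S, al => decide ((∑ b ∈ univ.filter (fun b => ∃ a ∈ S, al a b = true ∨ al b a = true), wt b) < ∑ a ∈ S, wt a)
  | .node a b l r, al => chk l (fun c d => al c d && !conf a b c d) &&
      chk r (fun c d => al c d && !(decide (c = a) && decide (d = b)))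

theorem chk_sound : ∀ (tr : Tr) (al : Fin 6 → Fin 6 → Bool), chk tr al = true →
    ∀ T : Fin 6 → Fin 6 → Prop, (∀ a b, T a b → al a b = true) →
    (∀ a b c d, T a b → T c d → conf a b c d = false) →
    ∃ S : Finset (Fin 6), ∀ B : Finset (Fin 6), (∀ b ∈ B, ∃ a ∈ S, T a b ∨ T b a) →
      (∑ b ∈ B, wt b) < ∑ a ∈ S, wt a := by
  intro tr
  induction tr with
  | leaf S =>
    intro al h T hT _
    refine ⟨S, fun B hB => ?_⟩
    have h' := of_decide_eq_true h
    refine lt_of_le_of_lt ?_ h'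
    apply sum_le_sum_of_subset
    intro b hb
    obtain ⟨a, ha, hab⟩ := hB b hb
    refine mem_filter.2 ⟨mem_univ _, a, ha, ?_⟩
    rcases hab with hab | hab
    · exact Or.inl (hT _ _ hab)
    · exact Or.inr (hT _ _ hab)
  | node a b l r ihl ihr =>
    intro al h T hT hc
    simp only [chk, Bool.and_eq_true] at h
    by_cases hab : T a b
    · refine ihl _ h.1 T (fun c d hcd => ?_) hc
      simp [hT c d hcd, hc a b c d hab hcd]
    · refine ihr _ h.2 T (fun c d hcd => ?_) hc
      have : ¬ (c = a ∧ d = b) := by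
        rintro ⟨rfl, rfl⟩; exact hab hcd
      simp only [hT c d hcd, Bool.true_and, Bool.not_eq_true', Bool.and_eq_false_iff, decide_eq_false_iff_not]
      tauto

/-- certificate: case distinction on which pairs of parts occur -/
def tree : Tr :=
  (.node 3 3 (.leaf {2, 4}) (.node 3 5 (.node 0 3 (.node 3 1 (.leaf {2}) (.node 5 3 (.leaf {0, 1,
  5}) (.node 1 0 (.leaf {2}) (.node 1 3 (.leaf {4}) (.leaf {1, 2, 3, 4}))))) (.node 5 3 (.node 1
  3 (.leaf {4}) (.node 3 1 (.leaf {4}) (.leaf {1}))) (.node 1 3 (.leaf {4}) (.node 3 1 (.leaf {0,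
  5}) (.node 1 0 (.leaf {2, 5}) (.node 2 5 (.leaf {0, 2, 3}) (.node 4 5 (.leaf {2, 3}) (.node 0 5
  (.leaf {2}) (.node 5 5 (.leaf {0}) (.node 1 5 (.leaf {5}) (.leaf {0, 1, 5}))))))))))) (.node 5
  3 (.node 3 0 (.node 1 3 (.leaf {2}) (.node 0 1 (.leaf {2}) (.node 3 1 (.leaf {4}) (.leaf {1, 2,
  3, 4})))) (.node 1 3 (.leaf {0, 5}) (.node 3 1 (.leaf {4}) (.node 0 1 (.leaf {2, 5}) (.node 0 3
  (.node 5 1 (.leaf {5}) (.leaf {0, 1, 5})) (.node 2 3 (.leaf {0}) (.leaf {0, 2, 3}))))))) (.node
  1 3 (.leaf {3, 5}) (.node 3 1 (.leaf {3, 5}) (.node 0 3 (.leaf {3, 5}) (.node 3 0 (.leaf {3,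
  5}) (.node 1 5 (.node 5 5 (.node 3 2 (.leaf {0}) (.node 3 4 (.leaf {2}) (.leaf {3}))) (.leaf
  {3, 5})) (.node 5 5 (.node 2 3 (.node 5 1 (.leaf {0}) (.leaf {1})) (.node 5 1 (.node 4 3 (.leaf
  {2}) (.leaf {3})) (.leaf {1}))) (.leaf {3, 5}))))))))))

lemma kmat_symm : ∀ a b, kmat a b = kmat b a := by decide

lemma kmat_le : ∀ a b, a ≠ b → kmat a b + 1 ≤ 15 := by decide

lemma kmat_tri : ∀ a b c, a ≠ b → b ≠ c → a ≠ c →
    15 < kmat a c + kmat b c ∨ 15 < kmat a b + kmat c b ∨ 15 < kmat b a + kmat c a := by decide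

theorem part_level (T : Fin 6 → Fin 6 → Prop)
    (hT : ∀ a b c d, T a b → T c d → a ≠ c → b ≠ d → ¬ (kmat a c + kmat b d + 1 ≤ 15)) :
    ∃ S : Finset (Fin 6), ∀ B : Finset (Fin 6), (∀ b ∈ B, ∃ a ∈ S, T a b ∨ T b a) →
      (∑ b ∈ B, wt b) < ∑ a ∈ S, wt a := by
  refine chk_sound tree (fun _ _ => true) (by decide +kernel) T (fun _ _ _ => rfl) ?_
  intro a b c d h1 h2
  by_contra hcon
  have : conf a b c d = true := by simpa using hcon
  simp only [conf, Bool.and_eq_true, decide_eq_true_eq] at this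
  exact hT a b c d h1 h2 this.1.1 this.1.2 this.2

open Classical in
/-- The deterministic part of the argument. -/
theorem no_system {V : Type} [Fintype V] [DecidableEq V] (π : V → Fin 6) (N s : ℕ)
    (hπ : ∀ a, (univ.filter (fun x => π x = a)).card = wt a * N) (H : V → V → Prop)
    (hA : ∀ (φ : V → V) (I J : Finset V) (a a' b b' : Fin 6), a ≠ a' → b ≠ b' →
        (∀ x ∈ I, π x = a ∧ π (φ x) = b) → (∀ x ∈ J, π x = a' ∧ π (φ x) = b') →
        (∀ x ∈ I ∪ J, ∀ y ∈ I ∪ J, φ x = φ y → x = y) →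
        (∀ x ∈ I ∪ J, ∀ y ∈ I ∪ J, φ x ≠ y) →
        kmat a a' + kmat b b' + 1 ≤ 15 → s ≤ I.card → s ≤ J.card →
        ∃ i ∈ I, ∃ j ∈ J, H i j ∧ H (φ i) (φ j))
    (hB : ∀ (I J : Finset V) (a a' : Fin 6), a ≠ a' → (∀ x ∈ I, π x = a) → (∀ x ∈ J, π x = a') →
        s ≤ I.card → s ≤ J.card → ∃ i ∈ I, ∃ j ∈ J, H i j)
    (hN : 96 * s < N) (p : ℕ) (U : Fin p → Finset V) (root : Fin p → V)
    (hroot : ∀ i, root i ∈ U i) (hdisj : ∀ i j, i ≠ j → Disjoint (U i) (U j))
    (hp : Fintype.card V ≤ 2 * p)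
    (h1 : ∀ i j, i ≠ j → U i = {root i} → ¬ H (root i) (root j))
    (h2 : ∀ i j x y, i ≠ j → U i = {root i, x} → x ≠ root i → U j = {root j, y} → y ≠ root j →
      ¬ (H (root i) (root j) ∧ H x y)) : False := by
  -- general facts
  have sameU : ∀ i j x, x ∈ U i → x ∈ U j → i = j := by
    intro i j x hi hj
    by_contra hij
    exact (Finset.disjoint_left.1 (hdisj i j hij)) hi hj
  have rootinj : Function.Injective root := by
    intro i j h
    exact sameU i j (root i) (hroot i) (h ▸ hroot j)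
  have hn : Fintype.card V = 19 * N := by
    have h := card_eq_sum_card_fiberwise (s := (univ : Finset V)) (t := (univ : Finset (Fin 6))) (f := π)
      (fun x _ => mem_coe.2 (mem_univ _))
    rw [card_univ] at h
    rw [h]
    simp only [hπ, Fin.sum_univ_six]
    simp [wt]
    ring
  have wtle : ∀ a, 2 * wt a ≤ 12 := by decide
  -- roots per part
  have hra : ∀ a, (univ.filter (fun i : Fin p => π (root i) = a)).card ≤ wt a * N := by
    intro a
    rw [← hπ a]
    apply card_le_card_of_injOn root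
    · intro i hi
      exact mem_coe.2 (mem_filter.2 ⟨mem_univ _, (mem_filter.1 hi).2⟩)
    · exact rootinj.injOn
  have hpsum : p = ∑ a : Fin 6, (univ.filter (fun i : Fin p => π (root i) = a)).card := by
    have h := card_eq_sum_card_fiberwise (s := (univ : Finset (Fin p))) (t := (univ : Finset (Fin 6)))
      (f := fun i => π (root i)) (fun x _ => mem_coe.2 (mem_univ _))
    rw [card_univ, Fintype.card_fin] at h
    exact h
  -- step 1 : few singletons
  have step1 : ∀ a, (univ.filter (fun i : Fin p => (U i).card = 1 ∧ π (root i) = a)).card ≤ s := by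
    intro a
    by_contra hcon
    push Not at hcon
    have hc : ∀ c, c ≠ a → (univ.filter (fun i : Fin p => π (root i) = c)).card ≤ s := by
      intro c hca
      by_contra hcon2
      push Not at hcon2
      obtain ⟨x, hx, y, hy, hxy⟩ := hB
        ((univ.filter (fun i : Fin p => (U i).card = 1 ∧ π (root i) = a)).image root)
        ((univ.filter (fun i : Fin p => π (root i) = c)).image root) a c hca.symm
        (by
          intro x hx
          obtain ⟨i, hi, rfl⟩ := mem_image.1 hx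
          exact (mem_filter.1 hi).2.2)
        (by
          intro x hx
          obtain ⟨i, hi, rfl⟩ := mem_image.1 hx
          exact (mem_filter.1 hi).2)
        (by rw [card_image_of_injective _ rootinj]; omega)
        (by rw [card_image_of_injective _ rootinj]; omega)
      obtain ⟨i, hi, rfl⟩ := mem_image.1 hx
      obtain ⟨j, hj, rfl⟩ := mem_image.1 hy
      obtain ⟨hi1, hi2⟩ := (mem_filter.1 hi).2
      have hj2 := (mem_filter.1 hj).2
      have hij : i ≠ j := by
        rintro rfl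
        exact hca (hj2.symm.trans hi2)
      obtain ⟨z, hz⟩ := card_eq_one.1 hi1
      have hzr : root i = z := by
        have := hroot i
        rw [hz] at this
        exact mem_singleton.1 this
      exact h1 i j hij (by rw [hz, hzr]) hxy
    have hsum : p ≤ wt a * N + 5 * s := by
      calc p = ∑ c : Fin 6, (univ.filter (fun i : Fin p => π (root i) = c)).card := hpsum
        _ = (univ.filter (fun i : Fin p => π (root i) = a)).card +
            ∑ c ∈ univ.erase a, (univ.filter (fun i : Fin p => π (root i) = c)).card := by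
            exact (Finset.add_sum_erase univ (fun c => (univ.filter (fun i : Fin p => π (root i) = c)).card) (mem_univ a)).symm
        _ ≤ wt a * N + ∑ c ∈ univ.erase a, s := by
            apply Nat.add_le_add (hra a)
            apply sum_le_sum
            intro c hc'
            exact hc c (ne_of_mem_erase hc')
        _ = wt a * N + 5 * s := by
            rw [sum_const, card_erase_of_mem (mem_univ _)]
            simp
    have h12 := wtle a
    have : 2 * wt a * N ≤ 12 * N := Nat.mul_le_mul_right _ h12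
    have h3 : 2 * (wt a * N) = 2 * wt a * N := by ring
    omega
  set P1 := univ.filter (fun i : Fin p => (U i).card = 1) with hP1
  set P2 := univ.filter (fun i : Fin p => (U i).card = 2) with hP2
  have hP1card : P1.card ≤ 6 * s := by
    have h := card_eq_sum_card_fiberwise (s := P1) (t := (univ : Finset (Fin 6)))
      (f := fun i => π (root i)) (fun x _ => mem_coe.2 (mem_univ _))
    rw [h]
    calc ∑ b : Fin 6, (P1.filter (fun i => π (root i) = b)).card ≤ ∑ b : Fin 6, s := by
          apply sum_le_sum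
          intro b _
          refine le_trans (card_le_card ?_) (step1 b)
          intro i hi
          obtain ⟨hi1, hi2⟩ := mem_filter.1 hi
          exact mem_filter.2 ⟨mem_univ _, (mem_filter.1 hi1).2, hi2⟩
      _ = 6 * s := by simp
  -- step 2 : many pairs
  have hUsum : ∑ i : Fin p, (U i).card ≤ Fintype.card V := by
    rw [← card_biUnion (fun i _ j _ hij => hdisj i j hij)]
    exact card_le_univ _
  have step2 : Fintype.card V ≤ 2 * P2.card + 24 * s := by
    have h : ∑ i : Fin p, 3 ≤ ∑ i : Fin p, ((U i).card + 2 * (if (U i).card = 1 then 1 else 0)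
        + (if (U i).card = 2 then 1 else 0)) := by
      apply sum_le_sum
      intro i _
      have : 0 < (U i).card := card_pos.2 ⟨_, hroot i⟩
      by_cases c1 : (U i).card = 1
      · simp [c1]
      · by_cases c2 : (U i).card = 2
        · simp [c2]
        · simp [c1, c2]; omega
    rw [sum_add_distrib, sum_add_distrib, ← mul_sum, ← card_filter, ← card_filter] at h
    simp only [sum_const, card_univ, Fintype.card_fin, smul_eq_mul] at h
    have e1 : (univ.filter (fun i : Fin p => (U i).card = 1)).card = P1.card := rfl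
    have e2 : (univ.filter (fun i : Fin p => (U i).card = 2)).card = P2.card := rfl
    rw [e1, e2] at h
    omega
  -- mates
  have hmate : ∀ i : Fin p, ∃ x, i ∈ P2 → (U i = {root i, x} ∧ x ≠ root i) := by
    intro i
    by_cases hi : i ∈ P2
    · obtain ⟨x, y, hxy, hU⟩ := card_eq_two.1 (mem_filter.1 hi).2
      have hr := hroot i
      rw [hU, mem_insert, mem_singleton] at hr
      rcases hr with hr | hr
      · exact ⟨y, fun _ => ⟨by rw [hU, hr], by rw [hr]; exact hxy.symm⟩⟩
      · exact ⟨x, fun _ => ⟨by rw [hU, hr, pair_comm], by rw [hr]; exact hxy⟩⟩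
    · exact ⟨root i, fun h => absurd h hi⟩
  choose w hw using hmate
  have hwU : ∀ i ∈ P2, w i ∈ U i := by
    intro i hi
    rw [(hw i hi).1]; simp
  let T : Fin 6 → Fin 6 → Prop := fun a b =>
    s ≤ (P2.filter (fun i => π (root i) = a ∧ π (w i) = b)).card
  -- step 3 : heavy types do not conflict
  have step3 : ∀ a b c d, T a b → T c d → a ≠ c → b ≠ d → ¬ (kmat a c + kmat b d + 1 ≤ 15) := by
    intro a b c d hab hcd hac hbd hk
    let φ : V → V := Function.extend root w id
    have hφ : ∀ i, φ (root i) = w i := fun i => rootinj.extend_apply w id i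
    let I := (P2.filter (fun i => π (root i) = a ∧ π (w i) = b)).image root
    let J := (P2.filter (fun i => π (root i) = c ∧ π (w i) = d)).image root
    have memIJ : ∀ x ∈ I ∪ J, ∃ i ∈ P2, x = root i := by
      intro x hx
      rcases mem_union.1 hx with hx | hx
      · obtain ⟨i, hi, rfl⟩ := mem_image.1 hx
        exact ⟨i, (mem_filter.1 hi).1, rfl⟩
      · obtain ⟨i, hi, rfl⟩ := mem_image.1 hx
        exact ⟨i, (mem_filter.1 hi).1, rfl⟩
    obtain ⟨x, hx, y, hy, hxy1, hxy2⟩ := hA φ I J a c b d hac hbd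
      (by
        intro x hx
        obtain ⟨i, hi, rfl⟩ := mem_image.1 hx
        rw [hφ]
        exact (mem_filter.1 hi).2)
      (by
        intro x hx
        obtain ⟨i, hi, rfl⟩ := mem_image.1 hx
        rw [hφ]
        exact (mem_filter.1 hi).2)
      (by
        intro x hx y hy hxy
        obtain ⟨i, hi, rfl⟩ := memIJ x hx
        obtain ⟨j, hj, rfl⟩ := memIJ y hy
        rw [hφ, hφ] at hxy
        have : i = j := sameU i j (w i) (hwU i hi) (hxy ▸ hwU j hj)
        rw [this])
      (by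
        intro x hx y hy hxy
        obtain ⟨i, hi, rfl⟩ := memIJ x hx
        obtain ⟨j, hj, rfl⟩ := memIJ y hy
        rw [hφ] at hxy
        have : i = j := sameU i j (w i) (hwU i hi) (hxy ▸ hroot j)
        subst this
        exact (hw i hi).2 hxy)
      hk
      (by rw [card_image_of_injective _ rootinj]; exact hab)
      (by rw [card_image_of_injective _ rootinj]; exact hcd)
    obtain ⟨i, hi, rfl⟩ := mem_image.1 hx
    obtain ⟨j, hj, rfl⟩ := mem_image.1 hy
    obtain ⟨hi1, hi2, hi3⟩ := mem_filter.1 hi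
    obtain ⟨hj1, hj2, hj3⟩ := mem_filter.1 hj
    rw [hφ, hφ] at hxy2
    have hij : i ≠ j := by
      rintro rfl
      exact hac (hi2.symm.trans hj2)
    exact h2 i j (w i) (w j) hij (hw i hi1).1 (hw i hi1).2 (hw j hj1).1 (hw j hj1).2 ⟨hxy1, hxy2⟩
  obtain ⟨S, hS⟩ := part_level T step3
  set B := univ.filter (fun b => ∃ a ∈ S, T a b ∨ T b a) with hBdef
  have hSB : (∑ b ∈ B, wt b) < ∑ a ∈ S, wt a := hS B (fun b hb => (mem_filter.1 hb).2)
  -- step 4 : counting
  have fiberS : ∀ A : Finset (Fin 6), (univ.filter (fun x : V => π x ∈ A)).card = (∑ a ∈ A, wt a) * N := by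
    intro A
    have h := card_eq_sum_card_fiberwise (s := univ.filter (fun x : V => π x ∈ A)) (t := A) (f := π)
      (fun x hx => mem_coe.2 (mem_filter.1 hx).2)
    rw [h, sum_mul]
    apply sum_congr rfl
    intro a ha
    rw [← hπ a]
    congr 1
    ext x
    simp only [mem_filter, mem_univ, true_and]
    constructor
    · rintro ⟨_, h⟩; exact h
    · rintro h; exact ⟨by rw [h]; exact ha, h⟩
  let cI : Finset (Fin 6) → Fin p → ℕ := fun A i => ((U i).filter (fun x => π x ∈ A)).card
  set Hv := P2.filter (fun i => T (π (root i)) (π (w i))) with hHv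
  set Lt := P2.filter (fun i => ¬ T (π (root i)) (π (w i))) with hLt
  have hLtcard : Lt.card ≤ 36 * s := by
    have h := card_eq_sum_card_fiberwise (s := Lt) (t := (univ : Finset (Fin 6 × Fin 6)))
      (f := fun i => (π (root i), π (w i))) (fun x _ => mem_coe.2 (mem_univ _))
    rw [h]
    calc ∑ b : Fin 6 × Fin 6, (Lt.filter (fun i => (π (root i), π (w i)) = b)).card
        ≤ ∑ b : Fin 6 × Fin 6, s := by
          apply sum_le_sum
          rintro ⟨a, b⟩ _
          by_cases hab : T a b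
          · have : Lt.filter (fun i => (π (root i), π (w i)) = (a, b)) = ∅ := by
              apply filter_eq_empty_iff.2
              intro i hi h
              have h' := Prod.mk.inj h
              have hi' := (mem_filter.1 hi).2
              rw [h'.1, h'.2] at hi'
              exact hi' hab
            rw [this]; simp
          · have hlt : (P2.filter (fun i => π (root i) = a ∧ π (w i) = b)).card < s := by
              by_contra hcon
              exact hab (not_lt.1 hcon)
            refine le_trans (card_le_card ?_) hlt.le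
            intro i hi
            obtain ⟨hi1, hi2⟩ := mem_filter.1 hi
            have h' := Prod.mk.inj hi2
            exact mem_filter.2 ⟨(mem_filter.1 hi1).1, h'.1, h'.2⟩
      _ = 36 * s := by simp
  have hC : (P2.biUnion U).card = 2 * P2.card := by
    rw [card_biUnion (fun i _ j _ hij => hdisj i j hij)]
    rw [sum_congr rfl (g := fun _ => 2)]
    · rw [sum_const, smul_eq_mul]; ring
    · intro i hi; exact (mem_filter.1 hi).2
  have hlower : (∑ a ∈ S, wt a) * N ≤ (∑ i ∈ P2, cI S i) + 24 * s := by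
    rw [← fiberS S]
    have hsub : (univ.filter (fun x : V => π x ∈ S)) ⊆
        (P2.biUnion (fun i => (U i).filter (fun x => π x ∈ S))) ∪ (P2.biUnion U)ᶜ := by
      intro x hx
      by_cases hxC : x ∈ P2.biUnion U
      · obtain ⟨i, hi, hxi⟩ := mem_biUnion.1 hxC
        exact mem_union_left _ (mem_biUnion.2 ⟨i, hi, mem_filter.2 ⟨hxi, (mem_filter.1 hx).2⟩⟩)
      · exact mem_union_right _ (mem_compl.2 hxC)
    calc (univ.filter (fun x : V => π x ∈ S)).card ≤ _ := card_le_card hsub
      _ ≤ (P2.biUnion (fun i => (U i).filter (fun x => π x ∈ S))).card + ((P2.biUnion U)ᶜ).card :=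
          card_union_le _ _
      _ ≤ (∑ i ∈ P2, cI S i) + 24 * s := by
          apply Nat.add_le_add card_biUnion_le
          rw [card_compl, hC]
          omega
  have hsplit : (∑ i ∈ P2, cI S i) = (∑ i ∈ Hv, cI S i) + ∑ i ∈ Lt, cI S i := by
    rw [hHv, hLt, sum_filter_add_sum_filter_not]
  have hlight : ∑ i ∈ Lt, cI S i ≤ 72 * s := by
    calc ∑ i ∈ Lt, cI S i ≤ ∑ i ∈ Lt, 2 := by
          apply sum_le_sum
          intro i hi
          have h2' := (mem_filter.1 (mem_filter.1 hi).1).2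
          exact (card_filter_le _ _).trans h2'.le
      _ = Lt.card * 2 := by rw [sum_const, smul_eq_mul]
      _ ≤ 72 * s := by omega
  have hheavy1 : ∑ i ∈ Hv, cI S i ≤ ∑ i ∈ Hv, cI B i := by
    apply sum_le_sum
    intro i hi
    obtain ⟨hi1, hi2⟩ := mem_filter.1 hi
    have hU := (hw i hi1).1
    have hne := (hw i hi1).2
    have hcount : ∀ A : Finset (Fin 6), cI A i = (if π (root i) ∈ A then 1 else 0) + (if π (w i) ∈ A then 1 else 0) := by
      intro A
      show ((U i).filter (fun x => π x ∈ A)).card = _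
      rw [hU, card_filter, sum_pair hne.symm]
    rw [hcount S, hcount B]
    have i1 : π (root i) ∈ S → π (w i) ∈ B := fun h => mem_filter.2 ⟨mem_univ _, _, h, Or.inl hi2⟩
    have i2 : π (w i) ∈ S → π (root i) ∈ B := fun h => mem_filter.2 ⟨mem_univ _, _, h, Or.inr hi2⟩
    by_cases c1 : π (root i) ∈ S <;> by_cases c2 : π (w i) ∈ S
    · simp [c1, c2, i1 c1, i2 c2]
    · simp [c1, c2, i1 c1]
    · simp [c1, c2, i2 c2]
    · simp [c1, c2]
  have hheavy2 : ∑ i ∈ Hv, cI B i ≤ (∑ b ∈ B, wt b) * N := by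
    rw [← fiberS B]
    have : ∑ i ∈ Hv, cI B i = (Hv.biUnion (fun i => (U i).filter (fun x => π x ∈ B))).card := by
      rw [card_biUnion]
      intro i _ j _ hij
      exact disjoint_filter_filter (hdisj i j hij)
    rw [this]
    apply card_le_card
    intro x hx
    obtain ⟨i, _, hxi⟩ := mem_biUnion.1 hx
    exact mem_filter.2 ⟨mem_univ _, (mem_filter.1 hxi).2⟩
  have hfin : ((∑ b ∈ B, wt b) + 1) * N ≤ (∑ a ∈ S, wt a) * N := Nat.mul_le_mul_right _ hSB
  have hexp : ((∑ b ∈ B, wt b) + 1) * N = (∑ b ∈ B, wt b) * N + N := by ring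
  omega


/-- choice of the numerical parameters -/
theorem numerics : ∃ t s' n L : ℕ, 0 < t ∧ 0 < s' ∧ t ^ 15 = 256 * s' ∧ n = 19 * (256 * s') ∧
    2 * (s' * s') + t ^ (15 - 1) * L ≤ (2 * s') * (2 * s') ∧
    4 * n ^ 3 ≤ (s' * s' + 1) * t ^ (15 + 1) ∧
    4 * (n ^ n * (2 ^ n * 2 ^ n)) ≤ 2 ^ L := by
  have key : (2 ^ 40) ^ 15 = 256 * 2 ^ 592 := by
    rw [← pow_mul]
    have : (256 : ℕ) = 2 ^ 8 := by norm_num
    rw [this, ← pow_add]
  obtain ⟨s', hs'⟩ : ∃ s' : ℕ, s' = 2 ^ 592 := ⟨_, rfl⟩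
  rw [← hs'] at key
  obtain ⟨t, ht⟩ : ∃ t : ℕ, t = 2 ^ 40 := ⟨_, rfl⟩
  rw [← ht] at key
  refine ⟨t, s', 19 * (256 * s'), s' * 2 ^ 33, ?_, ?_, key, rfl, ?_, ?_, ?_⟩
  · rw [ht]; positivity
  · rw [hs']; positivity
  · have h14 : t ^ (15 - 1) * (s' * 2 ^ 33) = s' * 2 * s' := by
      have h2 : t ^ 14 * 2 ^ 40 = 256 * s' := by rw [← key, ht]; ring
      have h3 : t ^ 14 * 2 ^ 33 = 2 * s' := by
        have : t ^ 14 * 2 ^ 33 * 128 = (2 * s') * 128 := by
          calc t ^ 14 * 2 ^ 33 * 128 = t ^ 14 * 2 ^ 40 := by ring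
            _ = 256 * s' := h2
            _ = _ := by ring
        exact Nat.eq_of_mul_eq_mul_right (by norm_num) this
      calc t ^ (15 - 1) * (s' * 2 ^ 33) = (t ^ 14 * 2 ^ 33) * s' := by
            show t ^ 14 * (s' * 2 ^ 33) = _
            ring
        _ = _ := by rw [h3]; ring
    rw [h14]; nlinarith
  · have h16 : t ^ (15 + 1) = 256 * s' * 2 ^ 40 := by rw [pow_succ, key, ht]
    rw [h16]
    have e1 : 4 * (19 * (256 * s')) ^ 3 = 460299698176 * (s' * s' * s') := by ring
    rw [e1]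
    have e2 : (s' * s' + 1) * (256 * s' * 2 ^ 40) = 281474976710656 * (s' * s' * s') + 281474976710656 * s' := by ring
    rw [e2]
    have : 460299698176 * (s' * s' * s') ≤ 281474976710656 * (s' * s' * s') := Nat.mul_le_mul_right _ (by norm_num)
    omega
  · set n := 19 * (256 * s') with hn
    have hn1 : n ≤ 2 ^ 605 := by
      rw [hn, hs']
      have : (2:ℕ) ^ 605 = 2 ^ 13 * 2 ^ 592 := by rw [← pow_add]
      rw [this, ← mul_assoc]
      exact Nat.mul_le_mul_right _ (by norm_num)
    calc 4 * (n ^ n * (2 ^ n * 2 ^ n)) ≤ 2 ^ 2 * ((2 ^ 605) ^ n * (2 ^ n * 2 ^ n)) := by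
          apply Nat.mul_le_mul (by norm_num)
          exact Nat.mul_le_mul_right _ (Nat.pow_le_pow_left hn1 n)
      _ = 2 ^ (2 + (605 * n + (n + n))) := by
          rw [← pow_mul, ← pow_add, ← pow_add, ← pow_add]
      _ ≤ 2 ^ (s' * 2 ^ 33) := by
          apply Nat.pow_le_pow_right (by norm_num)
          have hs0 : 1 ≤ s' := by rw [hs']; exact Nat.one_le_two_pow
          rw [hn]
          have : (2:ℕ) ^ 33 = 8589934592 := by norm_num
          rw [this]
          omega

/-! ### The statement and the final assembly -/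

/-- `HasChromaticScheme H p`: the graph `H` admits a chromatic `p`-scheme, i.e. there are a
proper colouring `Q` with `p` colours, `p` distinct basis vertices `v i`, and for every `i < j`
a path `P i j` of `H` from `v i` to `v j`, such that
* paths whose index pairs are disjoint have no common vertex,
* the basis vertices have pairwise distinct colours,
* every vertex of the path from `v i` to `v j` has the colour of `v i` or of `v j`. -/
def HasChromaticScheme {W : Type} (H : SimpleGraph W) (p : ℕ) : Prop :=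
  ∃ (Q : W → Fin p) (v : Fin p → W) (P : ∀ i j : Fin p, i < j → H.Walk (v i) (v j)),
    (∀ x y, H.Adj x y → Q x ≠ Q y) ∧
    Function.Injective v ∧
    (∀ i j (h : i < j), (P i j h).IsPath) ∧
    (∀ i j k l (h : i < j) (h' : k < l), i ≠ k → i ≠ l → j ≠ k → j ≠ l →
      ∀ x, x ∈ (P i j h).support → x ∉ (P k l h').support) ∧
    Function.Injective (fun i => Q (v i)) ∧
    (∀ i j (h : i < j), ∀ x ∈ (P i j h).support, Q x = Q (v i) ∨ Q x = Q (v j))

/-- The first two steps of a bicoloured path. -/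
lemma path_cases {W C : Type} (G₀ : SimpleGraph W) (Q : W → C)
    (hQ : ∀ x y, G₀.Adj x y → Q x ≠ Q y) {x y : W} (hxy : Q x ≠ Q y) (P : G₀.Walk x y)
    (hP : P.IsPath) (hcol : ∀ z ∈ P.support, Q z = Q x ∨ Q z = Q y) :
    G₀.Adj x y ∨ ∃ a b, Q a = Q y ∧ a ≠ y ∧ Q b = Q x ∧ b ≠ x ∧ G₀.Adj a b := by
  cases P with
  | nil => exact absurd rfl hxy
  | @cons _ a _ h P' =>
    have ha : Q a = Q y := by
      rcases hcol a (by simp) with h' | h'
      · exact absurd h'.symm (hQ x a h)
      · exact h'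
    by_cases hay : a = y
    · left; rw [← hay]; exact h
    · right
      cases P' with
      | nil => exact absurd rfl hay
      | @cons _ b _ h' P'' =>
        refine ⟨a, b, ha, hay, ?_, ?_, h'⟩
        · rcases hcol b (by simp) with h'' | h''
          · exact h''
          · exact absurd (ha.trans h''.symm) (hQ a b h')
        · rintro rfl
          have := hP.support_nodup
          simp at this

open Classical in
/-- **Main theorem.** There are a number `p ≥ 4` and a finite `p`-chromatic graph `G` such that no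
subgraph of `G` (obtained by deleting vertices and edges) admits a chromatic `p`-scheme. -/
theorem result : ∃ p : ℕ, 4 ≤ p ∧ ∃ (V : Type) (_ : Fintype V) (G : SimpleGraph V),
    G.chromaticNumber = p ∧ ∀ G' : G.Subgraph, ¬ HasChromaticScheme G'.coe p := by
  obtain ⟨t, s', n, L, ht, hs', htK, hn, hs, h0, h1⟩ := numerics
  let V : Type := Σ a : Fin 6, Fin (wt a * (256 * s'))
  let π : V → Fin 6 := Sigma.fst
  have hπ : ∀ a, (univ.filter (fun x : V => π x = a)).card = wt a * (256 * s') := by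
    intro a
    have : (univ.filter (fun x : V => π x = a)) = univ.image (fun y : Fin (wt a * (256 * s')) => (⟨a, y⟩ : V)) := by
      ext x
      simp only [mem_filter, mem_univ, true_and, mem_image]
      constructor
      · rintro h
        obtain ⟨b, y⟩ := x
        have h' : b = a := h
        subst h'
        exact ⟨y, rfl⟩
      · rintro ⟨y, rfl⟩; rfl
    rw [this, card_image_of_injective]
    · simp
    · intro y z h
      exact eq_of_heq (Sigma.mk.inj h).2
  have hcard : Fintype.card V = 19 * (256 * s') := by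
    show Fintype.card (Σ a : Fin 6, Fin (wt a * (256 * s'))) = _
    rw [Fintype.card_sigma]
    simp only [Fintype.card_fin, Fin.sum_univ_six]
    simp [wt]
    ring
  have hVpos : 0 < Fintype.card V := by rw [hcard]; omega
  obtain ⟨ω, hA, hB⟩ := exists_good (π := π) (k := kmat) (K := 15) (t := t) ht (by norm_num)
    kmat_le (2 * s') (s' * s') L hs (by rw [hcard, ← hn]; exact h0) (by rw [hcard, ← hn]; exact h1) hVpos
  -- the triangle-free graph and its complement
  let Hg : SimpleGraph V :=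
    { Adj := FinAdj π kmat 15 t ω
      symm := ⟨fun x y h => FinAdj.symm kmat_symm h⟩
      loopless := ⟨fun x h => h.1.1 rfl⟩ }
  have htf : ∀ x y z, Hg.Adj x y → Hg.Adj y z → Hg.Adj x z → False := by
    intro x y z h1 h2 h3
    exact no_triangle kmat_symm kmat_tri h1 h2 h3
  let G : SimpleGraph V := Hgᶜ
  have hcol : G.Colorable (Fintype.card V) := SimpleGraph.colorable_of_fintype G
  have hne : G.chromaticNumber ≠ ⊤ := SimpleGraph.chromaticNumber_ne_top_iff_exists.2 ⟨_, hcol⟩
  obtain ⟨p, hp⟩ : ∃ p : ℕ, G.chromaticNumber = p := ⟨G.chromaticNumber.toNat, (ENat.natCast_toNat hne).symm⟩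
  have hcolp : G.Colorable p := SimpleGraph.chromaticNumber_le_iff_colorable.1 hp.le
  have hp2 : Fintype.card V ≤ 2 * p := by
    obtain ⟨C⟩ := hcolp
    have h := card_eq_sum_card_fiberwise (s := (univ : Finset V)) (t := (univ : Finset (Fin p))) (f := fun x => C x)
      (fun x _ => mem_coe.2 (mem_univ _))
    rw [card_univ] at h
    rw [h]
    calc ∑ b : Fin p, (univ.filter (fun x : V => C x = b)).card ≤ ∑ b : Fin p, 2 := by
          apply sum_le_sum
          intro b _
          by_contra hcon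
          push Not at hcon
          obtain ⟨x, y, z, hx, hy, hz, hxy, hxz, hyz⟩ := two_lt_card_iff.1 hcon
          have hx' := (mem_filter.1 hx).2
          have hy' := (mem_filter.1 hy).2
          have hz' := (mem_filter.1 hz).2
          have adj : ∀ u w : V, C u = b → C w = b → u ≠ w → Hg.Adj u w := by
            intro u w hu hw huw
            by_contra hnot
            have : G.Adj u w := (SimpleGraph.compl_adj Hg u w).2 ⟨huw, hnot⟩
            exact C.valid this (hu.trans hw.symm)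
          exact htf x y z (adj x y hx' hy' hxy) (adj y z hy' hz' hyz) (adj x z hx' hz' hxz)
      _ = 2 * p := by simp [mul_comm]
  refine ⟨p, by omega, V, inferInstance, G, hp, ?_⟩
  rintro G' ⟨Q, v, P, hQ, hv, hP, -, hinj, hbi⟩
  -- colour classes of the basis vertices
  let U : Fin p → Finset V := fun i => univ.filter (fun x => ∃ h : x ∈ G'.verts, Q ⟨x, h⟩ = Q (v i))
  let root : Fin p → V := fun i => (v i).1
  have memU : ∀ i (x : G'.verts), Q x = Q (v i) → (x : V) ∈ U i := by
    intro i x hx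
    exact mem_filter.2 ⟨mem_univ _, x.2, hx⟩
  -- the key dichotomy
  have key : ∀ i j, i ≠ j → G.Adj (root i) (root j) ∨ ∃ a b : V, a ∈ U j ∧ a ≠ root j ∧ b ∈ U i ∧ b ≠ root i ∧ G.Adj a b := by
    intro i j hij
    rcases lt_or_gt_of_ne hij with hlt | hgt
    · rcases path_cases G'.coe Q hQ (x := v i) (y := v j) (fun h => hij (hinj h)) (P i j hlt) (hP i j hlt) (hbi i j hlt)
        with h | ⟨a, b, ha, ha', hb, hb', hab⟩
      · exact Or.inl (G'.coe_adj_sub _ _ h)
      · exact Or.inr ⟨a, b, memU j a ha, fun h => ha' (Subtype.ext h), memU i b hb,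
          fun h => hb' (Subtype.ext h), G'.coe_adj_sub _ _ hab⟩
    · rcases path_cases G'.coe Q hQ (x := v j) (y := v i) (fun h => hij (hinj h).symm) (P j i hgt) (hP j i hgt) (hbi j i hgt)
        with h | ⟨a, b, ha, ha', hb, hb', hab⟩
      · exact Or.inl (G'.coe_adj_sub _ _ h).symm
      · exact Or.inr ⟨b, a, memU j b hb, fun h => hb' (Subtype.ext h), memU i a ha,
          fun h => ha' (Subtype.ext h), (G'.coe_adj_sub _ _ hab).symm⟩
  refine no_system π (256 * s') (2 * s') hπ (fun x y => Hg.Adj x y) hA hB (by omega) p U root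
    (fun i => memU i (v i) rfl) ?_ hp2 ?_ ?_
  · intro i j hij
    rw [Finset.disjoint_left]
    intro x hx hx'
    obtain ⟨h, hxi⟩ := (mem_filter.1 hx).2
    obtain ⟨h', hxj⟩ := (mem_filter.1 hx').2
    exact hij (hinj (hxi.symm.trans hxj))
  · intro i j hij hU hadj
    rcases key i j hij with h | ⟨a, b, ha, ha', hb, hb', hab⟩
    · exact ((SimpleGraph.compl_adj Hg _ _).1 h).2 hadj
    · rw [hU, mem_singleton] at hb
      exact hb' hb
  · rintro i j x y hij hUi hx hUj hy ⟨hadj1, hadj2⟩
    rcases key i j hij with h | ⟨a, b, ha, ha', hb, hb', hab⟩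
    · exact ((SimpleGraph.compl_adj Hg _ _).1 h).2 hadj1
    · rw [hUi, mem_insert, mem_singleton] at hb
      rw [hUj, mem_insert, mem_singleton] at ha
      have hbx : b = x := hb.resolve_left hb'
      have hay : a = y := ha.resolve_left ha'
      rw [hbx, hay] at hab
      exact ((SimpleGraph.compl_adj Hg _ _).1 hab).2 hadj2.symm

end Pool.Agent.Results.MP_4cad9a_co.SchemesFail
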